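import Mathlib

/-!
# Specialisation of linearly independent vectors
-/

set_option autoImplicit false

namespace Pool.Agent.Lib.MP_b197b4_ntX

/-- Linearly independent vectors over a domain have a non-zero minor of full size. -/
theorem exists_minor {R κ : Type*} [CommRing R] [IsDomain R] :
    ∀ (n : ℕ) (M : Fin n → κ → R), LinearIndependent R M →
      ∃ c : Fin n → κ, (Matrix.of fun i j => M i (c j)).det ≠ 0 := by
  intro n
  induction n with
  | zero =>
    intro M _
    exact ⟨Fin.elim0, by simp⟩
  | succ n ih =>
    intro M hM
    obtain ⟨c, hc⟩ := ih (fun i => M i.succ) (hM.comp Fin.succ (Fin.succ_injective n))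
    by_contra hcon
    push Not at hcon
    have key : ∀ k : κ, ∑ i : Fin (n + 1), ((-1) ^ (i : ℕ) *
        (Matrix.of fun (a b : Fin n) => M (i.succAbove a) (c b)).det) * M i k = 0 := by
      intro k
      have h := hcon (Fin.cons k c)
      rw [Matrix.det_succ_column_zero] at h
      rw [← h]
      refine Finset.sum_congr rfl fun i _ => ?_
      have e : (Matrix.of fun (a b : Fin n) => M (i.succAbove a) (c b)) =
          (Matrix.of fun (i j : Fin (n + 1)) => M i ((Fin.cons k c : Fin (n + 1) → κ) j)).submatrix
            i.succAbove Fin.succ := by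
        ext a b
        simp [Matrix.submatrix_apply]
      rw [e]
      simp only [Matrix.of_apply, Fin.cons_zero]
      ring
    rw [Fintype.linearIndependent_iff] at hM
    have h0 := hM (fun i => (-1) ^ (i : ℕ) *
        (Matrix.of fun (a b : Fin n) => M (i.succAbove a) (c b)).det) (by
      funext k
      simpa [Finset.sum_apply] using key k) 0
    simp only [Fin.val_zero, pow_zero, one_mul, Fin.succAbove_zero] at h0
    exact hc h0

/-- Finitely many linearly independent vectors whose coordinates are polynomials stay linearly independent for suitable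
values of the variables. -/
theorem exists_spec {k σ ι κ : Type*} [Field k] [Infinite k] [Finite ι] [Finite σ]
    (M : ι → κ → MvPolynomial σ k) (hM : LinearIndependent (MvPolynomial σ k) M) {h : MvPolynomial σ k}
    (hh : h ≠ 0) : ∃ v : σ → k, MvPolynomial.eval v h ≠ 0 ∧
      LinearIndependent k fun i => fun j => MvPolynomial.eval v (M i j) := by
  obtain ⟨n, ⟨e⟩⟩ := Finite.exists_equiv_fin ι
  obtain ⟨c, hc⟩ := exists_minor n (fun i => M (e.symm i)) (hM.comp e.symm e.symm.injective)
  set D := (Matrix.of fun i j => M (e.symm i) (c j)).det with hD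
  have hDh : D * h ≠ 0 := mul_ne_zero hc hh
  obtain ⟨v, hv⟩ : ∃ v : σ → k, MvPolynomial.eval v (D * h) ≠ 0 := by
    by_contra hcon
    push Not at hcon
    exact hDh (MvPolynomial.funext fun x => by rw [hcon x, map_zero])
  rw [map_mul] at hv
  refine ⟨v, right_ne_zero_of_mul hv, ?_⟩
  have h1 : (Matrix.of fun i j => MvPolynomial.eval v (M (e.symm i) (c j))).det ≠ 0 := by
    have := left_ne_zero_of_mul hv
    rw [hD, RingHom.map_det] at this
    exact this
  have h2 := Matrix.linearIndependent_rows_of_det_ne_zero h1
  have h3 : LinearIndependent k fun i : Fin n => fun j : κ => MvPolynomial.eval v (M (e.symm i) j) := by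
    refine LinearIndependent.of_comp (LinearMap.funLeft k k c) ?_
    exact h2
  have h4 := h3.comp e e.injective
  convert h4 using 1
  funext i j
  simp

end Pool.Agent.Lib.MP_b197b4_ntX
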