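import Mathlib

/-!
# Roots of irreducible polynomials
-/

set_option autoImplicit false

namespace Pool.Agent.Lib.MP_b197b4_ntX

open Polynomial

/-- The values of the polynomials over the fraction fields. -/
theorem eval_frac {B D : Type*} [CommRing B] [IsDomain B] [CommRing D] [IsDomain D] (ψ : B →+* D)
    (hψ : Function.Injective ψ) (q : B[X]) (θ : D) :
    eval₂ (IsFractionRing.map (K := FractionRing B) (L := FractionRing D) hψ)
      (algebraMap D (FractionRing D) θ) (q.map (algebraMap B (FractionRing B))) =
      algebraMap D (FractionRing D) (eval₂ ψ θ q) := by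
  have h1 : (IsFractionRing.map (K := FractionRing B) (L := FractionRing D) hψ).comp
      (algebraMap B (FractionRing B)) = (algebraMap D (FractionRing D)).comp ψ := by
    apply RingHom.ext
    intro b
    exact IsLocalization.map_eq (M := nonZeroDivisors B) (T := nonZeroDivisors D)
      (nonZeroDivisors_le_comap_nonZeroDivisors_of_injective ψ hψ) b
  rw [eval₂_map, h1, hom_eval₂]

/-- An irreducible polynomial divides the polynomials with the same root. -/
theorem dvd_of_root {B D : Type*} [CommRing B] [IsDomain B] [CommRing D] [IsDomain D] (ψ : B →+* D)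
    (hψ : Function.Injective ψ) {Φ q : B[X]} (hΦ : Irreducible (Φ.map (algebraMap B (FractionRing B)))) {θ : D}
    (h : eval₂ ψ θ Φ = 0) (hq : eval₂ ψ θ q = 0) :
    Φ.map (algebraMap B (FractionRing B)) ∣ q.map (algebraMap B (FractionRing B)) := by
  by_contra hd
  obtain ⟨u, v, huv⟩ := (Irreducible.coprime_iff_not_dvd hΦ).2 hd
  have h1 := congrArg (eval₂ (IsFractionRing.map (K := FractionRing B) (L := FractionRing D) hψ)
    (algebraMap D (FractionRing D) θ)) huv
  rw [eval₂_add, eval₂_mul, eval₂_mul, eval_frac, eval_frac, h, hq, map_zero, mul_zero, mul_zero,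
    add_zero, eval₂_one] at h1
  exact zero_ne_one h1

/-- The converse. -/
theorem root_of_dvd {B D : Type*} [CommRing B] [IsDomain B] [CommRing D] [IsDomain D] (ψ : B →+* D)
    (hψ : Function.Injective ψ) {Φ q : B[X]} {θ : D} (h : eval₂ ψ θ Φ = 0)
    (hq : Φ.map (algebraMap B (FractionRing B)) ∣ q.map (algebraMap B (FractionRing B))) :
    eval₂ ψ θ q = 0 := by
  obtain ⟨r, hr⟩ := hq
  apply IsFractionRing.injective D (FractionRing D)
  rw [← eval_frac ψ hψ, hr, eval₂_mul, eval_frac, h, map_zero, zero_mul]

/-- Polynomials of smaller degree with the same root vanish. -/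
theorem zero_of_root {B D : Type*} [CommRing B] [IsDomain B] [CommRing D] [IsDomain D] (ψ : B →+* D)
    (hψ : Function.Injective ψ) {Φ q : B[X]} (hΦ : Irreducible (Φ.map (algebraMap B (FractionRing B)))) {θ : D}
    (h : eval₂ ψ θ Φ = 0) (hq : eval₂ ψ θ q = 0) (hdeg : q.natDegree < Φ.natDegree) : q = 0 := by
  have hinj : Function.Injective (algebraMap B (FractionRing B)) :=
    IsFractionRing.injective B (FractionRing B)
  have h1 := dvd_of_root ψ hψ hΦ h hq
  by_contra h0
  have h2 : q.map (algebraMap B (FractionRing B)) ≠ 0 := (Polynomial.map_ne_zero_iff hinj).2 h0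
  have h3 := natDegree_le_of_dvd h1 h2
  rw [natDegree_map_eq_of_injective hinj, natDegree_map_eq_of_injective hinj] at h3
  omega

end Pool.Agent.Lib.MP_b197b4_ntX
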