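import Pool.Agent.Lib.MP_b197b4_ntX.X2
import Pool.Agent.Lib.MP_b197b4_ntX.X8

/-!
# The generic curve through a point: the map to power series
-/

set_option autoImplicit false

namespace Pool.Agent.Lib.MP_b197b4_ntX

open Polynomial

/-- The point `y = X`, `x j = v j * g(X)` of the curve with the parameters `v`. -/
noncomputable def spc {k : Type*} [Field k] {e : ℕ} (g : k[X]) (v : Fin e → k) :
    MvPolynomial (Option (Fin e)) k →ₐ[k] k[X] :=
  MvPolynomial.aeval fun o => o.elim X fun j => C (v j) * g

/-- The generic point. -/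
noncomputable def gnr {k : Type*} [Field k] (e : ℕ) (g : k[X]) :
    MvPolynomial (Option (Fin e)) k →ₐ[k] (MvPolynomial (Fin e) k)[X] :=
  MvPolynomial.aeval fun o => o.elim X fun j => C (MvPolynomial.X j) * g.map MvPolynomial.C

theorem spc_gnr {k : Type*} [Field k] {e : ℕ} (g : k[X]) (v : Fin e → k) (b : MvPolynomial (Option (Fin e)) k) :
    spc g v b = (gnr e g b).map (MvPolynomial.eval v) := by
  have h : (spc g v : MvPolynomial (Option (Fin e)) k →+* k[X]) =
      (Polynomial.mapRingHom (MvPolynomial.eval v)).comp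
        (gnr e g : MvPolynomial (Option (Fin e)) k →+* (MvPolynomial (Fin e) k)[X]) := by
    refine MvPolynomial.ringHom_ext (fun r => ?_) fun o => ?_
    · simp [spc, gnr]
    · cases o with
      | none => simp [spc, gnr]
      | some j =>
        simp [spc, gnr, Polynomial.map_map]
        have : (MvPolynomial.eval v).comp (MvPolynomial.C : k →+* MvPolynomial (Fin e) k) = RingHom.id k := by
          ext r
          simp
        exact Or.inl (by rw [this, Polynomial.map_id])
  exact congrArg (fun f : MvPolynomial (Option (Fin e)) k →+* k[X] => f b) h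

theorem gnr_none {k : Type*} [Field k] (e : ℕ) (g : k[X]) : gnr e g (MvPolynomial.X none) = X := by
  simp [gnr]

theorem gnr_some {k : Type*} [Field k] (e : ℕ) (g : k[X]) (j : Fin e) :
    gnr e g (MvPolynomial.X (some j)) = C (MvPolynomial.X j) * g.map MvPolynomial.C := by
  simp [gnr]

theorem gnr_inj {k : Type*} [Field k] (e : ℕ) {g : k[X]} (hg : g ≠ 0) : Function.Injective (gnr e g) := by
  set S := (MvPolynomial (Fin e) k)[X] with hS
  set L := FractionRing S with hL
  set a : S →+* L := algebraMap S L with ha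
  have hainj : Function.Injective a := IsFractionRing.injective S L
  have hg0 : g.map (MvPolynomial.C : k →+* MvPolynomial (Fin e) k) ≠ 0 :=
    (Polynomial.map_ne_zero_iff (MvPolynomial.C_injective _ _)).2 hg
  have hag : a (g.map MvPolynomial.C) ≠ 0 := fun h => hg0 (hainj (by rw [h, map_zero]))
  set f : MvPolynomial (Fin e) k →+* L := MvPolynomial.eval₂Hom (a.comp (Polynomial.C.comp MvPolynomial.C))
    (fun j => a (C (MvPolynomial.X j)) / a (g.map MvPolynomial.C)) with hf
  set τ : S →+* L := Polynomial.eval₂RingHom f (a X) with hτ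
  have hτC : ∀ c, τ (C c) = f c := fun c => Polynomial.eval₂_C f (a X)
  have hτX : τ X = a X := Polynomial.eval₂_X f (a X)
  have hfC : ∀ r : k, f (MvPolynomial.C r) = a (C (MvPolynomial.C r)) := fun r =>
    MvPolynomial.eval₂Hom_C _ _ _
  have hfX : ∀ j, f (MvPolynomial.X j) = a (C (MvPolynomial.X j)) / a (g.map MvPolynomial.C) := fun j =>
    MvPolynomial.eval₂Hom_X' _ _ _
  have hτg : τ (g.map MvPolynomial.C) = a (g.map MvPolynomial.C) := by
    have h1 : (τ.comp (Polynomial.mapRingHom (MvPolynomial.C : k →+* MvPolynomial (Fin e) k))) =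
        a.comp (Polynomial.mapRingHom (MvPolynomial.C : k →+* MvPolynomial (Fin e) k)) := by
      refine Polynomial.ringHom_ext (fun r => ?_) ?_
      · show τ ((C r).map MvPolynomial.C) = a ((C r).map MvPolynomial.C)
        rw [Polynomial.map_C, hτC, hfC]
      · show τ (X.map MvPolynomial.C) = a (X.map MvPolynomial.C)
        rw [Polynomial.map_X, hτX]
    exact congrArg (fun F : k[X] →+* L => F g) h1
  have key : τ.comp (gnr e g : MvPolynomial (Option (Fin e)) k →+* S) =
      a.comp ((MvPolynomial.optionEquivLeft k (Fin e)).toAlgHom : MvPolynomial (Option (Fin e)) k →+* S) := by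
    refine MvPolynomial.ringHom_ext (fun r => ?_) fun o => ?_
    · have h1 : gnr e g (MvPolynomial.C r) = C (MvPolynomial.C r) := by
        simp [gnr, Polynomial.algebraMap_apply]
      show τ (gnr e g (MvPolynomial.C r)) = a ((MvPolynomial.optionEquivLeft k (Fin e)) (MvPolynomial.C r))
      rw [h1, hτC, hfC, MvPolynomial.optionEquivLeft_C]
    · cases o with
      | none =>
        show τ (gnr e g (MvPolynomial.X none)) =
          a ((MvPolynomial.optionEquivLeft k (Fin e)) (MvPolynomial.X none))
        rw [gnr_none, hτX, MvPolynomial.optionEquivLeft_X_none]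
      | some j =>
        have h1 : τ (gnr e g (MvPolynomial.X (some j))) = a (C (MvPolynomial.X j)) := by
          rw [gnr_some, map_mul, hτg]
          have h2 : τ (C (MvPolynomial.X j)) = a (C (MvPolynomial.X j)) / a (g.map MvPolynomial.C) := by
            rw [hτC, hfX]
          rw [h2, div_mul_cancel₀ _ hag]
        have h3 : (MvPolynomial.optionEquivLeft k (Fin e)) (MvPolynomial.X (some j)) = C (MvPolynomial.X j) :=
          MvPolynomial.optionEquivLeft_X_some k (Fin e) j
        show τ (gnr e g (MvPolynomial.X (some j))) =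
          a ((MvPolynomial.optionEquivLeft k (Fin e)) (MvPolynomial.X (some j)))
        rw [h1, h3]
  have hinj2 : Function.Injective (fun b => a ((MvPolynomial.optionEquivLeft k (Fin e)) b)) :=
    hainj.comp (MvPolynomial.optionEquivLeft k (Fin e)).injective
  intro b b' hb
  apply hinj2
  have h4 : ∀ b, τ (gnr e g b) = a ((MvPolynomial.optionEquivLeft k (Fin e)) b) := fun b =>
    congrArg (fun F : MvPolynomial (Option (Fin e)) k →+* L => F b) key
  simp only []
  rw [← h4, ← h4, hb]

/-- Expansion of a polynomial at `t`. -/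
noncomputable def expn {R : Type*} [CommRing R] (t : R) : R[X] →+* PowerSeries R :=
  Polynomial.eval₂RingHom (PowerSeries.C (R := R)) (PowerSeries.C t + PowerSeries.X)

theorem expn_C {R : Type*} [CommRing R] (t r : R) : expn t (C r) = PowerSeries.C r := by
  simp [expn]

theorem expn_X {R : Type*} [CommRing R] (t : R) : expn t X = PowerSeries.C t + PowerSeries.X := by
  simp [expn]

theorem expn_taylor {R : Type*} [CommRing R] (t : R) (q : R[X]) :
    expn t q = ((Polynomial.taylor t q : R[X]) : PowerSeries R) := by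
  have h : expn t = (Polynomial.coeToPowerSeries.ringHom (R := R)).comp (Polynomial.taylorAlgHom t : R[X] →+* R[X]) := by
    refine Polynomial.ringHom_ext (fun r => ?_) ?_
    · simp [expn_C]
    · simp [expn_X, add_comm]
  exact congrArg (fun F : R[X] →+* PowerSeries R => F q) h

theorem expn_inj {R : Type*} [CommRing R] (t : R) : Function.Injective (expn t) := by
  intro q q' h
  rw [expn_taylor, expn_taylor] at h
  exact Polynomial.taylor_injective t (Polynomial.coe_injective R h)

theorem expn_map {R S : Type*} [CommRing R] [CommRing S] (f : R →+* S) (t : R) (q : R[X]) :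
    PowerSeries.map f (expn t q) = expn (f t) (q.map f) := by
  have h : (PowerSeries.map f).comp (expn t) = (expn (f t)).comp (Polynomial.mapRingHom f) := by
    refine Polynomial.ringHom_ext (fun r => ?_) ?_
    · simp [expn_C]
    · simp [expn_X]
  exact congrArg (fun F : R[X] →+* PowerSeries S => F q) h

theorem expn_const {R : Type*} [CommRing R] (t : R) (q : R[X]) :
    PowerSeries.constantCoeff (expn t q) = q.eval t := by
  have h : (PowerSeries.constantCoeff (R := R)).comp (expn t) = Polynomial.evalRingHom t := by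
    refine Polynomial.ringHom_ext (fun r => ?_) ?_
    · simp [expn_C]
    · simp [expn_X]
  exact congrArg (fun F : R[X] →+* R => F q) h

/-- The map to power series. -/
theorem exists_rhoV {k A : Type*} [Field k] [Infinite k] [CommRing A] [IsNoetherianRing A] [Algebra k A]
    {e : ℕ} (m : Ideal A) [m.IsPrime] (y : A) (x : Fin e → A) (t : k) (hy : y - algebraMap k A t ∈ m)
    (hx : ∀ j, x j ∈ m) (hres : ∀ a : A, ∃ r : k, a - algebraMap k A r ∈ m)
    (hgen : m ≤ Ideal.span (Set.range fun o : Option (Fin e) =>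
        o.elim y x - algebraMap k A (o.elim t fun _ => 0)) ⊔ m ^ 2)
    (hdim : ringKrullDim (Localization.AtPrime m) = (e + 1 : ℕ)) (g : k[X]) (hg : g.eval t = 0) :
    ∃ ρ : A →ₐ[k] PowerSeries (MvPolynomial (Fin e) k), ∀ b : MvPolynomial (Option (Fin e)) k,
      ρ (MvPolynomial.aeval (fun o : Option (Fin e) => o.elim y x) b) = expn (MvPolynomial.C t) (gnr e g b) := by
  have hcst : ∀ r : k, algebraMap k (PowerSeries (MvPolynomial (Fin e) k)) r =
      expn (MvPolynomial.C t) (gnr e g (MvPolynomial.C r)) := by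
    intro r
    have h1 : gnr e g (MvPolynomial.C r) = C (MvPolynomial.C r) := by
      simp [gnr, Polynomial.algebraMap_apply]
    rw [h1, expn_C, PowerSeries.algebraMap_apply, MvPolynomial.algebraMap_eq]
  obtain ⟨ρ, hρ⟩ := exists_rho (k := k) (R := MvPolynomial (Fin e) k) m
    (fun o : Option (Fin e) => o.elim y x - algebraMap k A (o.elim t fun _ => 0)) (by
      intro o
      cases o with
      | none => exact hy
      | some j =>
        show x j - algebraMap k A 0 ∈ m
        rw [map_zero, sub_zero]
        exact hx j) hres hgen (by rw [hdim]; simp)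
    (fun o => expn (MvPolynomial.C t) (gnr e g (MvPolynomial.X o)) -
      algebraMap k (PowerSeries (MvPolynomial (Fin e) k)) (o.elim t fun _ => 0)) (by
      intro o
      have h2 : ∀ r : k, PowerSeries.constantCoeff (algebraMap k (PowerSeries (MvPolynomial (Fin e) k)) r) =
          MvPolynomial.C r := by
        intro r
        rw [hcst, expn_const]
        simp [gnr, Polynomial.algebraMap_apply]
      rw [map_sub, expn_const, h2]
      cases o with
      | none =>
        rw [gnr_none]
        simp
      | some j =>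
        rw [gnr_some]
        show Polynomial.eval _ _ - MvPolynomial.C 0 = 0
        rw [Polynomial.eval_mul, Polynomial.eval_C, Polynomial.eval_map, Polynomial.eval₂_at_apply, hg]
        simp)
  refine ⟨ρ, fun b => ?_⟩
  have h : (ρ : A →+* PowerSeries (MvPolynomial (Fin e) k)).comp
      (MvPolynomial.aeval (fun o : Option (Fin e) => o.elim y x) : MvPolynomial (Option (Fin e)) k →ₐ[k] A).toRingHom =
      (expn (MvPolynomial.C t)).comp (gnr e g : MvPolynomial (Option (Fin e)) k →+* (MvPolynomial (Fin e) k)[X]) := by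
    refine MvPolynomial.ringHom_ext (fun r => ?_) fun o => ?_
    · show ρ (MvPolynomial.aeval _ (MvPolynomial.C r)) = expn (MvPolynomial.C t) (gnr e g (MvPolynomial.C r))
      rw [← hcst, MvPolynomial.aeval_C]
      exact ρ.commutes r
    · show ρ (MvPolynomial.aeval _ (MvPolynomial.X o)) = expn (MvPolynomial.C t) (gnr e g (MvPolynomial.X o))
      rw [MvPolynomial.aeval_X]
      have h3 := hρ o
      rw [map_sub] at h3
      have h4 : ρ (algebraMap k A (o.elim t fun _ => 0)) =
          algebraMap k (PowerSeries (MvPolynomial (Fin e) k)) (o.elim t fun _ => 0) := ρ.commutes _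
      rw [h4] at h3
      exact sub_left_injective h3
  exact congrArg (fun F : MvPolynomial (Option (Fin e)) k →+* PowerSeries (MvPolynomial (Fin e) k) => F b) h

/-- Polynomials in the parameters, multiplied by a power of `g`, come from the coordinates. -/
theorem exists_hom {k : Type*} [Field k] (e : ℕ) (g : k[X]) (c : MvPolynomial (Fin e) k) (D : ℕ)
    (hD : c.totalDegree ≤ D) : ∃ b : MvPolynomial (Option (Fin e)) k,
      gnr e g b = C c * (g.map MvPolynomial.C) ^ D := by
  classical
  set G : MvPolynomial (Option (Fin e)) k := Polynomial.aeval (MvPolynomial.X none) g with hG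
  have hGg : gnr e g G = g.map MvPolynomial.C := by
    have h1 : ((gnr e g : MvPolynomial (Option (Fin e)) k →+* (MvPolynomial (Fin e) k)[X])).comp
        (Polynomial.aeval (MvPolynomial.X none : MvPolynomial (Option (Fin e)) k) : k[X] →ₐ[k] _).toRingHom =
        Polynomial.mapRingHom (MvPolynomial.C : k →+* MvPolynomial (Fin e) k) := by
      refine Polynomial.ringHom_ext (fun r => ?_) ?_
      · simp [gnr, Polynomial.algebraMap_apply]
      · simp [gnr]
    exact congrArg (fun F : k[X] →+* (MvPolynomial (Fin e) k)[X] => F g) h1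
  have hmon : ∀ (α : Fin e →₀ ℕ) (r : k), (∑ j, α j) ≤ D → ∃ b : MvPolynomial (Option (Fin e)) k,
      gnr e g b = C (MvPolynomial.monomial α r) * (g.map MvPolynomial.C) ^ D := by
    intro α r hα
    refine ⟨MvPolynomial.C r * (∏ j, MvPolynomial.X (some j) ^ α j) * G ^ (D - ∑ j, α j), ?_⟩
    rw [map_mul, map_mul, map_pow, hGg, map_prod]
    have h2 : ∏ j, gnr e g (MvPolynomial.X (some j) ^ α j) =
        C (∏ j, MvPolynomial.X j ^ α j) * (g.map MvPolynomial.C) ^ (∑ j, α j) := by
      rw [← Finset.prod_pow_eq_pow_sum, map_prod, ← Finset.prod_mul_distrib]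
      refine Finset.prod_congr rfl fun j _ => ?_
      rw [map_pow, gnr_some, mul_pow, map_pow]
    have h3 : gnr e g (MvPolynomial.C r) = C (MvPolynomial.C r) := by
      simp [gnr, Polynomial.algebraMap_apply]
    have h4 : MvPolynomial.monomial α r = MvPolynomial.C r * ∏ j, MvPolynomial.X j ^ α j := by
      rw [MvPolynomial.monomial_eq, Finsupp.prod_fintype _ _ (by simp)]
    rw [h2, h3, h4, map_mul]
    have h5 : (g.map (MvPolynomial.C : k →+* MvPolynomial (Fin e) k)) ^ D =
        (g.map MvPolynomial.C) ^ (∑ j, α j) * (g.map MvPolynomial.C) ^ (D - ∑ j, α j) := by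
      rw [← pow_add]
      congr 1
      omega
    rw [h5]
    ring
  have h6 : ∀ α ∈ c.support, ∃ b : MvPolynomial (Option (Fin e)) k,
      gnr e g b = C (MvPolynomial.monomial α (c.coeff α)) * (g.map MvPolynomial.C) ^ D := by
    intro α hα
    apply hmon
    refine le_trans ?_ hD
    have := MvPolynomial.le_totalDegree hα
    rwa [Finsupp.sum_fintype _ _ (by simp)] at this
  choose! b hb using h6
  refine ⟨∑ α ∈ c.support, b α, ?_⟩
  rw [map_sum, Finset.sum_congr rfl hb, ← Finset.sum_mul, ← map_sum]
  congr 2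
  exact (MvPolynomial.as_sum c).symm

/-- The powers of `y` and `θ` are linearly independent over the ring of the parameters. -/
theorem indepV {k A : Type*} [Field k] [CommRing A] [IsDomain A] [Algebra k A] {e : ℕ} (xx : Option (Fin e) → A)
    (t : k) {g : k[X]} (hg : g ≠ 0) (ρ : A →ₐ[k] PowerSeries (MvPolynomial (Fin e) k))
    (hρ : ∀ b, ρ (MvPolynomial.aeval xx b) = expn (MvPolynomial.C t) (gnr e g b)) (hinj : Function.Injective ρ)
    {θ : A} {Φ : Polynomial (MvPolynomial (Option (Fin e)) k)}
    (hΦ : Irreducible (Φ.map (algebraMap (MvPolynomial (Option (Fin e)) k)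
      (FractionRing (MvPolynomial (Option (Fin e)) k)))))
    (hθ : Polynomial.eval₂ (MvPolynomial.aeval xx : MvPolynomial (Option (Fin e)) k →ₐ[k] A).toRingHom θ Φ = 0)
    (B : ℕ) : LinearIndependent (MvPolynomial (Fin e) k) fun ij : Fin (B + 1) × Fin Φ.natDegree => fun n : ℕ =>
      PowerSeries.coeff n (expn (MvPolynomial.C t) X ^ (ij.1 : ℕ) * ρ θ ^ (ij.2 : ℕ)) := by
  classical
  set ψ := (MvPolynomial.aeval xx : MvPolynomial (Option (Fin e)) k →ₐ[k] A).toRingHom with hψ
  have hρ' : ∀ b, ρ (ψ b) = expn (MvPolynomial.C t) (gnr e g b) := hρ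
  have hψinj : Function.Injective ψ := by
    intro b b' hb
    apply gnr_inj e hg
    apply expn_inj (MvPolynomial.C t)
    rw [← hρ', ← hρ', hb]
  set N := Φ.natDegree with hN
  rw [Fintype.linearIndependent_iff]
  intro c hc
  set D : ℕ := Finset.univ.sup fun ij => (c ij).totalDegree with hD
  have hb0 : ∀ ij, ∃ b : MvPolynomial (Option (Fin e)) k, gnr e g b = C (c ij) * (g.map MvPolynomial.C) ^ D :=
    fun ij => exists_hom e g (c ij) D (Finset.le_sup (f := fun ij => (c ij).totalDegree) (Finset.mem_univ ij))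
  choose b hb using hb0
  have h1 : ∑ ij : Fin (B + 1) × Fin N, PowerSeries.C (c ij) *
      (expn (MvPolynomial.C t) X ^ (ij.1 : ℕ) * ρ θ ^ (ij.2 : ℕ)) = 0 := by
    ext1 n
    have h2 := congrFun hc n
    rw [Finset.sum_apply] at h2
    rw [map_sum, map_zero]
    refine Eq.trans (Finset.sum_congr rfl fun ij _ => ?_) h2
    rw [PowerSeries.coeff_C_mul]
    rfl
  have hy : ρ (xx none) = expn (MvPolynomial.C t) X := by
    have h3 := hρ (MvPolynomial.X none)
    rw [MvPolynomial.aeval_X, gnr_none] at h3
    exact h3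
  have h4 : ρ (∑ ij : Fin (B + 1) × Fin N, ψ (b ij) * (xx none ^ (ij.1 : ℕ) * θ ^ (ij.2 : ℕ))) = 0 := by
    rw [map_sum]
    have h5 : ∀ ij : Fin (B + 1) × Fin N, ρ (ψ (b ij) * (xx none ^ (ij.1 : ℕ) * θ ^ (ij.2 : ℕ))) =
        expn (MvPolynomial.C t) ((g.map MvPolynomial.C) ^ D) * (PowerSeries.C (c ij) *
          (expn (MvPolynomial.C t) X ^ (ij.1 : ℕ) * ρ θ ^ (ij.2 : ℕ))) := by
      intro ij
      rw [map_mul, map_mul, map_pow, map_pow, hy, hρ', hb, map_mul, expn_C]
      ring
    rw [Finset.sum_congr rfl fun ij _ => h5 ij, ← Finset.mul_sum, h1, mul_zero]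
  have h6 : ∑ ij : Fin (B + 1) × Fin N, ψ (b ij) * (xx none ^ (ij.1 : ℕ) * θ ^ (ij.2 : ℕ)) = 0 :=
    hinj (by rw [h4, map_zero])
  set q : Polynomial (MvPolynomial (Option (Fin e)) k) :=
    ∑ j : Fin N, C (∑ i : Fin (B + 1), b (i, j) * MvPolynomial.X none ^ (i : ℕ)) * X ^ (j : ℕ) with hq
  have hψX : ψ (MvPolynomial.X none) = xx none := MvPolynomial.aeval_X xx none
  have h7 : Polynomial.eval₂ ψ θ q = 0 := by
    rw [hq, Polynomial.eval₂_finset_sum, ← h6, Fintype.sum_prod_type_right]
    refine Finset.sum_congr rfl fun j _ => ?_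
    rw [Polynomial.eval₂_mul, Polynomial.eval₂_C, Polynomial.eval₂_X_pow, map_sum, Finset.sum_mul]
    refine Finset.sum_congr rfl fun i _ => ?_
    rw [map_mul, map_pow, hψX]
    ring
  intro ij0
  have hN0 : 0 < N := lt_of_le_of_lt (Nat.zero_le _) ij0.2.2
  have h8 : q.natDegree < Φ.natDegree := by
    refine lt_of_le_of_lt (Polynomial.natDegree_sum_le_of_forall_le _ _ (n := N - 1) fun j _ => ?_)
      (by rw [← hN]; omega)
    refine (Polynomial.natDegree_C_mul_X_pow_le _ _).trans ?_
    omega
  have h9 := zero_of_root ψ hψinj hΦ hθ h7 h8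
  have h10 : ∑ i : Fin (B + 1), b (i, ij0.2) * MvPolynomial.X none ^ (i : ℕ) = 0 := by
    have h11 : q.coeff (ij0.2 : ℕ) = 0 := by rw [h9, Polynomial.coeff_zero]
    rw [hq, Polynomial.finset_sum_coeff, Finset.sum_eq_single ij0.2] at h11
    · rw [Polynomial.coeff_C_mul_X_pow, if_pos rfl] at h11
      exact h11
    · intro j _ hj
      rw [Polynomial.coeff_C_mul_X_pow, if_neg]
      intro h
      exact hj (Fin.ext h.symm)
    · intro h
      exact absurd (Finset.mem_univ _) h
  have h12 : ∑ i : Fin (B + 1), C (c (i, ij0.2)) * (X : (MvPolynomial (Fin e) k)[X]) ^ (i : ℕ) = 0 := by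
    have h13 := congrArg (gnr e g) h10
    rw [map_sum, map_zero] at h13
    have h14 : (g.map (MvPolynomial.C : k →+* MvPolynomial (Fin e) k)) ^ D *
        ∑ i : Fin (B + 1), C (c (i, ij0.2)) * (X : (MvPolynomial (Fin e) k)[X]) ^ (i : ℕ) = 0 := by
      rw [Finset.mul_sum, ← h13]
      refine Finset.sum_congr rfl fun i _ => ?_
      rw [map_mul, hb, map_pow, gnr_none]
      ring
    refine (mul_eq_zero.1 h14).resolve_left (pow_ne_zero _ ?_)
    exact (Polynomial.map_ne_zero_iff (MvPolynomial.C_injective _ _)).2 hg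
  have h15 : (∑ i : Fin (B + 1), C (c (i, ij0.2)) * (X : (MvPolynomial (Fin e) k)[X]) ^ (i : ℕ)).coeff
      (ij0.1 : ℕ) = 0 := by rw [h12, Polynomial.coeff_zero]
  rw [Polynomial.finset_sum_coeff, Finset.sum_eq_single ij0.1] at h15
  · rw [Polynomial.coeff_C_mul_X_pow, if_pos rfl] at h15
    exact h15
  · intro i _ hi
    rw [Polynomial.coeff_C_mul_X_pow, if_neg]
    intro h
    exact hi (Fin.ext h.symm)
  · intro h
    exact absurd (Finset.mem_univ _) h

end Pool.Agent.Lib.MP_b197b4_ntX
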