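import Pool.Agent.Lib.MP_b197b4_ntX.X5
import Pool.Agent.Lib.MP_b197b4_ntX.X7a

/-!
Comparison of the kernels and linear independence after specialisation (for the assembly `X7`).
-/

namespace Pool.Agent.Lib.MP_b197b4_ntX

open Polynomial

/-- The kernel of a map from `A` is determined by the specialised equation. -/
theorem ker_iff {A B B' D : Type*} [CommRing A] [CommRing B] [CommRing B'] [IsDomain B'] [CommRing D] [IsDomain D]
    (ψ : B →+* A) (sp : B →+* B') (π : A →+* D) (σ : B' →+* D) (hσ : Function.Injective σ)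
    (hcomm : ∀ b, π (ψ b) = σ (sp b)) {Φ : B[X]} {θ : A} (hΦ : eval₂ ψ θ Φ = 0)
    (hirr : Irreducible ((Φ.map sp).map (algebraMap B' (FractionRing B')))) {b : B} (hb : sp b ≠ 0) {a : A} {n : ℕ}
    {q : B[X]} (ha : ψ b ^ n * a = eval₂ ψ θ q) :
    π a = 0 ↔ (Φ.map sp).map (algebraMap B' (FractionRing B')) ∣ (q.map sp).map (algebraMap B' (FractionRing B')) := by
  have hev : ∀ p : B[X], π (eval₂ ψ θ p) = eval₂ σ (π θ) (p.map sp) := by
    intro p
    rw [hom_eval₂, eval₂_map]
    have : π.comp ψ = σ.comp sp := RingHom.ext hcomm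
    rw [this]
  have h1 : eval₂ σ (π θ) (Φ.map sp) = 0 := by
    rw [← hev, hΦ, map_zero]
  have h2 : π a = 0 ↔ eval₂ σ (π θ) (q.map sp) = 0 := by
    rw [← hev, ← ha, map_mul, map_pow, hcomm, mul_eq_zero]
    constructor
    · exact Or.inr
    · rintro (h | h)
      · exact absurd h (pow_ne_zero n fun h' => hb (hσ (h'.trans (map_zero σ).symm)))
      · exact h
  rw [h2]
  exact ⟨fun h => dvd_of_root σ hσ hirr h1 h, fun h => root_of_dvd σ hσ h1 h⟩

/-- Irreducibility criterion, with a ring homomorphism in place of an algebra structure. -/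
theorem irr_of_indep' {k R : Type*} [Field k] [CommRing R] [IsDomain R] (σ : k[X] →+* R)
    (hinj : Function.Injective σ) {Φ : k[X][X]} {B N : ℕ} (hN : Φ.natDegree = N) (hN0 : 0 < N)
    (hB : ∀ j, (Φ.coeff j).natDegree ≤ B) {α : R} (hα : eval₂ σ α Φ = 0)
    (hind : ∀ q : k[X][X], q.natDegree < N → (∀ j, (q.coeff j).natDegree ≤ B) → eval₂ σ α q = 0 → q = 0) :
    Irreducible (Φ.map (algebraMap k[X] (FractionRing k[X]))) := by
  let _ : Algebra k[X] R := σ.toAlgebra
  exact (irr_of_indep (R := R) hinj hN hN0 hB (α := α) hα hind).1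

/-- Linear independence of the coefficients gives the hypothesis of the criterion. -/
theorem ind_coeff {k : Type*} [Field k] (σ : k[X] →+* PowerSeries k) (hσ : ∀ r, σ (C r) = PowerSeries.C r)
    (α : PowerSeries k) (B N : ℕ)
    (hM : LinearIndependent k fun ij : Fin (B + 1) × Fin N => fun n : ℕ =>
      PowerSeries.coeff n (σ X ^ (ij.1 : ℕ) * α ^ (ij.2 : ℕ))) (q : k[X][X]) (hq : q.natDegree < N)
    (hqB : ∀ j, (q.coeff j).natDegree ≤ B) (h : eval₂ σ α q = 0) : q = 0 := by
  classical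
  have h1 : ∑ ij : Fin (B + 1) × Fin N, (q.coeff ij.2).coeff ij.1 •
      (fun n : ℕ => PowerSeries.coeff n (σ X ^ (ij.1 : ℕ) * α ^ (ij.2 : ℕ))) = 0 := by
    funext n
    rw [Finset.sum_apply]
    have h2 : eval₂ σ α q = ∑ j : Fin N, (∑ i : Fin (B + 1), PowerSeries.C ((q.coeff j).coeff i) * σ X ^ (i : ℕ)) * α ^ (j : ℕ) := by
      rw [eval₂_eq_sum_range' σ hq, Finset.sum_range]
      refine Finset.sum_congr rfl fun j _ => ?_
      congr 1
      conv_lhs => rw [(q.coeff j).as_sum_range_C_mul_X_pow' (Nat.lt_succ_of_le (hqB j)), map_sum, Finset.sum_range]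
      refine Finset.sum_congr rfl fun i _ => ?_
      rw [map_mul, map_pow, hσ]
    have h3 := congrArg (PowerSeries.coeff n) (h2.symm.trans h)
    rw [map_sum, map_zero] at h3
    rw [Pi.zero_apply, ← h3, Fintype.sum_prod_type_right]
    refine Finset.sum_congr rfl fun j _ => ?_
    rw [Finset.sum_mul, map_sum]
    refine Finset.sum_congr rfl fun i _ => ?_
    rw [mul_assoc, PowerSeries.coeff_C_mul]
    rfl
  have h4 := Fintype.linearIndependent_iff.1 hM _ h1
  ext j i
  rw [coeff_zero, coeff_zero]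
  by_cases hj : j < N
  · by_cases hi : i ≤ B
    · exact h4 (⟨i, Nat.lt_succ_of_le hi⟩, ⟨j, hj⟩)
    · exact coeff_eq_zero_of_natDegree_lt (lt_of_le_of_lt (hqB j) (not_le.1 hi))
  · rw [coeff_eq_zero_of_natDegree_lt (lt_of_lt_of_le hq (not_lt.1 hj)), coeff_zero]

end Pool.Agent.Lib.MP_b197b4_ntX
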