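import Pool.Agent.Lib.MP_b197b4_ntX.X3
import Pool.Agent.Lib.MP_b197b4_ntX.X4
import Pool.Agent.Lib.MP_b197b4_ntX.X7k

/-!
For suitable parameters `v` the equations `x j = v j * g(y)` define only one prime ideal on which `y` is
transcendental.
-/

universe u

namespace Pool.Agent.Lib.MP_b197b4_ntX

open Polynomial

/-- The map from the polynomials to the quotient. -/
theorem mk_aeval {k A : Type*} [Field k] [CommRing A] [Algebra k A] {e : ℕ} (y : A) (x : Fin e → A) (g : k[X])
    (v : Fin e → k) (P : Ideal A) (hx : ∀ j, x j - algebraMap k A (v j) * aeval y g ∈ P)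
    (b : MvPolynomial (Option (Fin e)) k) :
    Ideal.Quotient.mk P (MvPolynomial.aeval (fun o : Option (Fin e) => o.elim y x) b) =
      Ideal.Quotient.mk P (aeval y (spc g v b)) := by
  have h : ((Ideal.Quotient.mkₐ k P).comp (MvPolynomial.aeval (fun o : Option (Fin e) => o.elim y x))) =
      (Ideal.Quotient.mkₐ k P).comp ((aeval y).comp (spc g v)) := by
    apply MvPolynomial.algHom_ext
    intro o
    simp only [AlgHom.comp_apply, MvPolynomial.aeval_X, Ideal.Quotient.mkₐ_eq_mk]
    cases o with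
    | none => simp [spc]
    | some j =>
      simp only [spc, Option.elim_some, MvPolynomial.aeval_X, map_mul, aeval_C]
      rw [← map_mul, Ideal.Quotient.eq]
      exact hx j
  have h1 := congrArg (fun F : MvPolynomial (Option (Fin e)) k →ₐ[k] A ⧸ P => F b) h
  simpa using h1

theorem exists_unique_prime {k A : Type u} [Field k] [IsAlgClosed k] [CommRing A] [IsDomain A] [Algebra k A]
    [Algebra.FiniteType k A] {e : ℕ} (m : Ideal A) [m.IsMaximal] (y : A) (x : Fin e → A) (t : k)
    (hy : y - algebraMap k A t ∈ m) (hx : ∀ j, x j ∈ m) (hres : ∀ a : A, ∃ r : k, a - algebraMap k A r ∈ m)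
    (hgen : m ≤ Ideal.span (Set.range fun o : Option (Fin e) =>
        o.elim y x - algebraMap k A (o.elim t fun _ => 0)) ⊔ m ^ 2)
    (hdim : ringKrullDim (Localization.AtPrime m) = (e + 1 : ℕ)) (g : k[X]) (hg : g.eval t = 0) (hg0 : g ≠ 0)
    (h₀ : MvPolynomial (Fin e) k) (hh₀ : h₀ ≠ 0) :
    ∃ (v : Fin e → k) (P : Ideal A), MvPolynomial.eval v h₀ ≠ 0 ∧ P.IsPrime ∧
      (∀ j, x j - algebraMap k A (v j) * aeval y g ∈ P) ∧ (∀ h : k[X], h ≠ 0 → aeval y h ∉ P) ∧
      ∀ P' : Ideal A, P'.IsPrime → (∀ j, x j - algebraMap k A (v j) * aeval y g ∈ P') →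
        (∀ h : k[X], h ≠ 0 → aeval y h ∉ P') → P' = P := by
  classical
  have : Infinite k := IsAlgClosed.instInfinite
  have : IsNoetherianRing A := Algebra.FiniteType.isNoetherianRing k A
  have hxx : ∀ i : Option (Fin e), i.elim y x - algebraMap k A (i.elim t fun _ => 0) ∈ m := by
    intro i
    cases i with
    | none => exact hy
    | some j => simpa using hx j
  -- the map to power series with coefficients in the ring of the parameters
  obtain ⟨ρ, hρ⟩ := exists_rhoV (k := k) m y x t hy hx hres hgen hdim g hg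
  set ψ := (MvPolynomial.aeval (fun o : Option (Fin e) => o.elim y x) :
    MvPolynomial (Option (Fin e)) k →ₐ[k] A).toRingHom with hψ
  have hρ' : ∀ b, ρ (ψ b) = expn (MvPolynomial.C t) (gnr e g b) := hρ
  have hψinj : Function.Injective ψ := by
    intro b b' hb
    apply gnr_inj e hg0
    apply expn_inj (MvPolynomial.C t)
    rw [← hρ', ← hρ', hb]
  -- the generator
  obtain ⟨θ, Φ, b, hb, hΦirr, hΦ, hgenθ⟩ := exists_theta (k := k) (fun o : Option (Fin e) => o.elim y x)
    (fun o : Option (Fin e) => o.elim t fun _ => 0) m hres hgen hxx hψinj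
  have hgenθ' : ∀ a : A, ∃ (n : ℕ) (q : Polynomial (MvPolynomial (Option (Fin e)) k)),
      ψ b ^ n * a = eval₂ ψ θ q := hgenθ
  have hΦ' : eval₂ ψ θ Φ = 0 := hΦ
  -- injectivity
  have hρψinj : Function.Injective ((ρ : A →+* PowerSeries (MvPolynomial (Fin e) k)).comp ψ) := by
    intro b b' hb
    have hb' : ρ (ψ b) = ρ (ψ b') := hb
    rw [hρ', hρ'] at hb'
    exact gnr_inj e hg0 (expn_inj _ hb')
  have hρinj : Function.Injective ρ := by
    rw [injective_iff_map_eq_zero]
    intro a ha
    obtain ⟨n, q, hq⟩ := hgenθ' a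
    have h1 : eval₂ ((ρ : A →+* PowerSeries (MvPolynomial (Fin e) k)).comp ψ) (ρ θ) q = 0 := by
      have h2 : (ρ : A →+* PowerSeries (MvPolynomial (Fin e) k)) (eval₂ ψ θ q) = 0 := by
        rw [← hq, map_mul]
        show _ * ρ a = 0
        rw [ha, mul_zero]
      rw [hom_eval₂] at h2
      exact h2
    have h3 : eval₂ ((ρ : A →+* PowerSeries (MvPolynomial (Fin e) k)).comp ψ) (ρ θ) Φ = 0 := by
      have h2 : (ρ : A →+* PowerSeries (MvPolynomial (Fin e) k)) (eval₂ ψ θ Φ) = 0 := by
        rw [hΦ', map_zero]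
      rw [hom_eval₂] at h2
      exact h2
    have h4 := dvd_of_root _ hρψinj hΦirr h3 h1
    have h5 := root_of_dvd ψ hψinj hΦ' h4
    rw [h5] at hq
    rcases mul_eq_zero.1 hq with h6 | h6
    · exact absurd h6 (pow_ne_zero n fun h' => hb (hψinj (h'.trans (map_zero ψ).symm)))
    · exact h6
  -- degrees
  obtain ⟨B, hB⟩ : ∃ B : ℕ, ∀ j, (gnr e g (Φ.coeff j)).natDegree ≤ B := by
    refine ⟨Φ.support.sup fun j => (gnr e g (Φ.coeff j)).natDegree, fun j => ?_⟩
    by_cases hj : j ∈ Φ.support
    · exact Finset.le_sup (f := fun j => (gnr e g (Φ.coeff j)).natDegree) hj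
    · rw [notMem_support_iff.1 hj, map_zero, natDegree_zero]
      exact Nat.zero_le _
  have hind := indepV (fun o : Option (Fin e) => o.elim y x) t hg0 ρ hρ hρinj hΦirr hΦ B
  have hΦ0 : Φ ≠ 0 := by
    rintro rfl
    rw [Polynomial.map_zero] at hΦirr
    exact hΦirr.ne_zero rfl
  have hc₁ : (gnr e g Φ.leadingCoeff).leadingCoeff ≠ 0 := by
    rw [Ne, leadingCoeff_eq_zero]
    intro h
    exact hΦ0 (leadingCoeff_eq_zero.1 (gnr_inj e hg0 (h.trans (map_zero _).symm)))
  have hc₂ : (gnr e g b).leadingCoeff ≠ 0 := by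
    rw [Ne, leadingCoeff_eq_zero]
    intro h
    exact hb (gnr_inj e hg0 (h.trans (map_zero _).symm))
  obtain ⟨v, hv, hindv⟩ := exists_spec _ hind (mul_ne_zero (mul_ne_zero hc₁ hc₂) hh₀)
  rw [map_mul, map_mul] at hv
  have hv₁ : MvPolynomial.eval v (gnr e g Φ.leadingCoeff).leadingCoeff ≠ 0 := fun h => hv (by rw [h]; ring)
  have hv₂ : MvPolynomial.eval v (gnr e g b).leadingCoeff ≠ 0 := fun h => hv (by rw [h]; ring)
  have hv₀ : MvPolynomial.eval v h₀ ≠ 0 := fun h => hv (by rw [h]; ring)
  -- the specialised map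
  set ρv : A →+* PowerSeries k := (PowerSeries.map (MvPolynomial.eval v)).comp
    (ρ : A →+* PowerSeries (MvPolynomial (Fin e) k)) with hρv
  have hρvψ : ∀ b, ρv (ψ b) = expn t ((spc g v : MvPolynomial (Option (Fin e)) k →+* k[X]) b) := by
    intro b
    show PowerSeries.map (MvPolynomial.eval v) (ρ (ψ b)) = expn t (spc g v b)
    rw [hρ', expn_map, spc_gnr, MvPolynomial.eval_C]
  set sp : MvPolynomial (Option (Fin e)) k →+* k[X] :=
    (spc g v : MvPolynomial (Option (Fin e)) k →+* k[X]) with hsp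
  have hspc : ∀ c, sp c = (gnr e g c).map (MvPolynomial.eval v) := fun c => spc_gnr g v c
  have hne : ∀ c : MvPolynomial (Option (Fin e)) k, MvPolynomial.eval v (gnr e g c).leadingCoeff ≠ 0 → sp c ≠ 0 := by
    intro c hc h
    rw [hspc] at h
    apply hc
    have := congrArg (fun p : k[X] => p.coeff (gnr e g c).natDegree) h
    simpa [coeff_map] using this
  have hdeg : (Φ.map sp).natDegree = Φ.natDegree :=
    natDegree_map_of_leadingCoeff_ne_zero sp (hne _ hv₁)
  have hNpos : 0 < Φ.natDegree := by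
    have h1 := hΦirr.natDegree_pos
    rwa [natDegree_map_eq_of_injective (IsFractionRing.injective _ _)] at h1
  have hirr : Irreducible ((Φ.map sp).map (algebraMap k[X] (FractionRing k[X]))) := by
    refine irr_of_indep' (expn t) (expn_inj t) hdeg hNpos (B := B) (α := ρv θ) ?_ ?_ ?_
    · intro j
      rw [coeff_map, hspc]
      exact natDegree_map_le.trans (hB j)
    · have h1 : ρv (eval₂ ψ θ Φ) = 0 := by rw [hΦ', map_zero]
      rw [hom_eval₂] at h1
      have h2 : ρv.comp ψ = (expn t).comp sp := RingHom.ext hρvψ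
      rw [h2] at h1
      rw [eval₂_map]
      exact h1
    · intro q hq hqB hq0
      refine ind_coeff (expn t) (expn_C t) (ρv θ) B Φ.natDegree ?_ q hq hqB hq0
      have h1 : (fun ij : Fin (B + 1) × Fin Φ.natDegree => fun n : ℕ =>
          PowerSeries.coeff n (expn t X ^ (ij.1 : ℕ) * ρv θ ^ (ij.2 : ℕ))) =
          fun ij : Fin (B + 1) × Fin Φ.natDegree => fun n : ℕ => MvPolynomial.eval v
            (PowerSeries.coeff n (expn (MvPolynomial.C t) X ^ (ij.1 : ℕ) * ρ θ ^ (ij.2 : ℕ))) := by
        funext ij n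
        rw [← PowerSeries.coeff_map, map_mul (PowerSeries.map (MvPolynomial.eval v)),
          map_pow (PowerSeries.map (MvPolynomial.eval v)), map_pow (PowerSeries.map (MvPolynomial.eval v)), expn_map,
          Polynomial.map_X, MvPolynomial.eval_C]
        rfl
      rw [h1]
      exact hindv
  -- the prime
  have hker : ∀ {D : Type u} [CommRing D] [IsDomain D] (π : A →+* D) (σ : k[X] →+* D)
      (_ : Function.Injective σ) (_ : ∀ c, π (ψ c) = σ (sp c)) (a : A), π a = 0 ↔ ρv a = 0 := by
    intro D _ _ π σ hσ hcomm a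
    obtain ⟨n, q, hq⟩ := hgenθ' a
    rw [ker_iff ψ sp π σ hσ hcomm hΦ' hirr (hne _ hv₂) hq,
      ker_iff ψ sp ρv (expn t) (expn_inj t) hρvψ hΦ' hirr (hne _ hv₂) hq]
  have hyψ : ∀ h : k[X], ∃ c, ψ c = aeval y h ∧ sp c = h := by
    intro h
    refine ⟨aeval (MvPolynomial.X none) h, ?_, ?_⟩
    · show MvPolynomial.aeval (fun o : Option (Fin e) => o.elim y x) (aeval (MvPolynomial.X none) h) = aeval y h
      rw [← aeval_algHom_apply, MvPolynomial.aeval_X]
      rfl
    · show spc g v (aeval (MvPolynomial.X none) h) = h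
      rw [← aeval_algHom_apply]
      have : spc g v (MvPolynomial.X none) = X := by simp [spc]
      rw [this, aeval_X_left_apply]
  refine ⟨v, RingHom.ker ρv, hv₀, RingHom.ker_isPrime ρv, ?_, ?_, ?_⟩
  · intro j
    obtain ⟨c, hc, hc'⟩ := hyψ g
    have h1 : x j - algebraMap k A (v j) * aeval y g =
        ψ (MvPolynomial.X (some j) - MvPolynomial.C (v j) * c) := by
      rw [map_sub, map_mul, hc]
      congr 1
      · exact (MvPolynomial.aeval_X (fun o : Option (Fin e) => o.elim y x) (some j)).symm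
      · congr 1
        exact (MvPolynomial.aeval_C (fun o : Option (Fin e) => o.elim y x) (v j)).symm
    rw [RingHom.mem_ker, h1, hρvψ, map_sub, map_mul, hc']
    have h2 : sp (MvPolynomial.X (some j)) = C (v j) * g := by
      show spc g v (MvPolynomial.X (some j)) = C (v j) * g
      simp [spc]
    have h3 : sp (MvPolynomial.C (v j)) = C (v j) := by
      show spc g v (MvPolynomial.C (v j)) = C (v j)
      simp [spc, Polynomial.algebraMap_apply]
    rw [h2, h3, sub_self, map_zero]
  · intro h hh hmem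
    obtain ⟨c, hc, hc'⟩ := hyψ h
    rw [RingHom.mem_ker, ← hc, hρvψ, hc'] at hmem
    exact hh (expn_inj t (hmem.trans (map_zero _).symm))
  · intro P' hP' hxP hyP
    ext a
    rw [RingHom.mem_ker, ← Ideal.Quotient.eq_zero_iff_mem]
    refine hker (Ideal.Quotient.mk P') ((Ideal.Quotient.mk P').comp (aeval y : k[X] →ₐ[k] A).toRingHom) ?_ ?_ a
    · rw [injective_iff_map_eq_zero]
      intro h hh
      by_contra h0
      exact hyP h h0 (Ideal.Quotient.eq_zero_iff_mem.1 hh)
    · intro c
      exact mk_aeval y x g v P' hxP c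

end Pool.Agent.Lib.MP_b197b4_ntX
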