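import Mathlib

/-!
# Quotients of local rings which are discrete valuation rings
-/

set_option autoImplicit false

namespace Pool.Agent.Lib.MP_b197b4_ntX

open IsLocalRing

/-- In a Noetherian local ring whose maximal ideal is generated by one element every element is a unit times a power of
this element or zero. -/
theorem exists_unit_pow {R : Type*} [CommRing R] [IsLocalRing R] [IsNoetherianRing R] (p : R)
    (hp : maximalIdeal R = Ideal.span {p}) {a : R} (ha : a ≠ 0) :
    ∃ (n : ℕ) (u : R), IsUnit u ∧ a = u * p ^ n := by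
  have hbot : (⨅ i : ℕ, maximalIdeal R ^ i) = ⊥ :=
    Ideal.iInf_pow_eq_bot_of_isLocalRing (maximalIdeal R) Ideal.IsPrime.ne_top'
  have hex : ∃ n : ℕ, a ∉ maximalIdeal R ^ n := by
    by_contra hcon
    push Not at hcon
    apply ha
    have : a ∈ (⨅ i : ℕ, maximalIdeal R ^ i) := by
      rw [Ideal.mem_iInf]
      exact hcon
    rwa [hbot, Ideal.mem_bot] at this
  classical
  have hn := Nat.find_spec hex
  have hn0 : Nat.find hex ≠ 0 := by
    intro h0
    rw [h0] at hn
    simp at hn
  obtain ⟨m, hm⟩ := Nat.exists_eq_succ_of_ne_zero hn0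
  have hmin : a ∈ maximalIdeal R ^ m := by
    by_contra hc
    exact Nat.find_min hex (by omega) hc
  rw [hp, Ideal.span_singleton_pow, Ideal.mem_span_singleton'] at hmin
  obtain ⟨u, hu⟩ := hmin
  refine ⟨m, u, ?_, hu.symm⟩
  by_contra hnu
  have hu' : u ∈ maximalIdeal R := (mem_maximalIdeal _).2 hnu
  apply hn
  rw [hm, Nat.succ_eq_add_one, pow_succ', ← hu]
  exact Ideal.mul_mem_mul hu' (Ideal.pow_mem_pow (by rw [hp]; exact Ideal.mem_span_singleton_self p) m)

/-- A Noetherian local ring whose maximal ideal is generated by one element, not nilpotent, is a discrete valuation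
ring. -/
theorem dvr_of_span {R : Type*} [CommRing R] [IsLocalRing R] [IsNoetherianRing R] (p : R)
    (hp : maximalIdeal R = Ideal.span {p}) (hn : ∀ n : ℕ, p ^ n ≠ 0) :
    ∃ _ : IsDomain R, IsDiscreteValuationRing R := by
  have hdom : IsDomain R := by
    have hnt : Nontrivial R := ⟨⟨p ^ 0, 0, hn 0⟩⟩
    have hnz : NoZeroDivisors R := by
      refine ⟨fun {a b} hab => ?_⟩
      by_contra hcon
      push Not at hcon
      obtain ⟨ha, hb⟩ := hcon
      obtain ⟨n, u, hu, rfl⟩ := exists_unit_pow p hp ha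
      obtain ⟨m, v, hv, rfl⟩ := exists_unit_pow p hp hb
      have : (u * v) * p ^ (n + m) = 0 := by
        rw [← hab]; ring
      rw [(hu.mul hv).mul_right_eq_zero] at this
      exact hn _ this
    exact NoZeroDivisors.to_isDomain R
  refine ⟨hdom, ?_⟩
  refine IsDiscreteValuationRing.ofHasUnitMulPowIrreducibleFactorization ⟨p, ?_, ?_⟩
  · have hpn : ¬ IsUnit p := by
      rw [← mem_nonunits_iff, ← mem_maximalIdeal, hp]
      exact Ideal.mem_span_singleton_self p
    refine ⟨hpn, fun {a b} hab => ?_⟩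
    by_contra hcon
    push Not at hcon
    have ha : a ∈ maximalIdeal R := (mem_maximalIdeal _).2 hcon.1
    have hb : b ∈ maximalIdeal R := (mem_maximalIdeal _).2 hcon.2
    rw [hp, Ideal.mem_span_singleton'] at ha hb
    obtain ⟨a', rfl⟩ := ha
    obtain ⟨b', rfl⟩ := hb
    have h0 : p * (1 - p * (a' * b')) = 0 := by
      have : p * (1 - p * (a' * b')) = p - (a' * p) * (b' * p) := by ring
      rw [this, ← hab, sub_self]
    rcases mul_eq_zero.1 h0 with h | h
    · exact hn 1 (by rw [pow_one, h])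
    · exact hpn (IsUnit.of_mul_eq_one (a' * b') (by
        have := sub_eq_zero.1 h
        exact this.symm))
  · intro x hx
    obtain ⟨n, u, hu, rfl⟩ := exists_unit_pow p hp hx
    refine ⟨n, ?_⟩
    exact ⟨hu.unit, by rw [IsUnit.unit_spec]; ring⟩

/-- A quotient of a Noetherian local ring whose maximal ideal is generated by one element `π`, which is not nilpotent, is
a discrete valuation ring. -/
theorem dvr_quot {O : Type*} [CommRing O] [IsLocalRing O] [IsNoetherianRing O] (J : Ideal O) (π : O)
    (hmax : J ⊔ Ideal.span {π} = maximalIdeal O) (hn : ∀ n : ℕ, π ^ n ∉ J) :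
    ∃ _ : IsDomain (O ⧸ J), IsDiscreteValuationRing (O ⧸ J) ∧
      ∀ a ∉ J, ∃ (n : ℕ) (u : O), IsUnit u ∧ a - u * π ^ n ∈ J := by
  have hJ : J ≠ ⊤ := by
    intro h
    exact hn 0 (by rw [h]; trivial)
  have hnt : Nontrivial (O ⧸ J) := Ideal.Quotient.nontrivial_iff.2 hJ
  have hlr : IsLocalRing (O ⧸ J) := IsLocalRing.of_surjective' (Ideal.Quotient.mk J) Ideal.Quotient.mk_surjective
  have hJm : J ≤ maximalIdeal O := le_maximalIdeal hJ
  have hloc : ∀ u : O, IsUnit (Ideal.Quotient.mk J u) → IsUnit u := by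
    intro u hu
    by_contra hnu
    have hum : u ∈ maximalIdeal O := (mem_maximalIdeal _).2 hnu
    obtain ⟨b, hb⟩ := hu.exists_right_inv
    obtain ⟨b, rfl⟩ := Ideal.Quotient.mk_surjective b
    rw [← map_mul, ← map_one (Ideal.Quotient.mk J), Ideal.Quotient.eq] at hb
    have h1 : (1 : O) ∈ maximalIdeal O := by
      have h2 := sub_mem (Ideal.mul_mem_right b _ hum) (hJm hb)
      rwa [sub_sub_cancel] at h2
    exact (Ideal.ne_top_iff_one _).1 (IsLocalRing.maximalIdeal.isMaximal O).ne_top h1
  have hp : maximalIdeal (O ⧸ J) = Ideal.span {Ideal.Quotient.mk J π} := by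
    apply le_antisymm
    · intro x hx
      obtain ⟨a, rfl⟩ := Ideal.Quotient.mk_surjective x
      have ha : a ∈ maximalIdeal O := by
        rw [mem_maximalIdeal, mem_nonunits_iff] at hx ⊢
        exact fun h => hx (h.map _)
      rw [← hmax, Submodule.mem_sup] at ha
      obtain ⟨j, hj, y, hy, rfl⟩ := ha
      rw [Ideal.mem_span_singleton'] at hy
      obtain ⟨c, rfl⟩ := hy
      rw [map_add, Ideal.Quotient.eq_zero_iff_mem.2 hj, zero_add, map_mul]
      exact Ideal.mul_mem_left _ _ (Ideal.mem_span_singleton_self _)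
    · rw [Ideal.span_singleton_le_iff_mem, mem_maximalIdeal, mem_nonunits_iff]
      intro h
      have h1 := hloc π h
      have h2 : π ∈ maximalIdeal O := by
        rw [← hmax]
        exact Ideal.mem_sup_right (Ideal.mem_span_singleton_self _)
      exact ((mem_maximalIdeal _).1 h2) h1
  have hn' : ∀ n : ℕ, (Ideal.Quotient.mk J π) ^ n ≠ 0 := by
    intro n h
    rw [← map_pow, Ideal.Quotient.eq_zero_iff_mem] at h
    exact hn n h
  obtain ⟨hd, hdvr⟩ := dvr_of_span _ hp hn'
  refine ⟨hd, hdvr, ?_⟩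
  intro a ha
  have ha' : Ideal.Quotient.mk J a ≠ 0 := by
    intro h
    exact ha (Ideal.Quotient.eq_zero_iff_mem.1 h)
  obtain ⟨n, u, hu, he⟩ := exists_unit_pow _ hp ha'
  obtain ⟨u, rfl⟩ := Ideal.Quotient.mk_surjective u
  refine ⟨n, u, hloc u hu, ?_⟩
  rw [← Ideal.Quotient.eq_zero_iff_mem, map_sub, map_mul, map_pow, he, sub_self]

/-- The local ring of the quotient by the contraction. -/
theorem dvr_localization {A : Type*} [CommRing A] (m : Ideal A) [m.IsPrime] (J : Ideal (Localization.AtPrime m))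
    [J.IsPrime] (hJ : J ≤ maximalIdeal (Localization.AtPrime m)) (P : Ideal A)
    (hP : P = J.comap (algebraMap A (Localization.AtPrime m))) [(m.map (Ideal.Quotient.mk P)).IsPrime] :
    Nonempty (Localization.AtPrime (m.map (Ideal.Quotient.mk P)) ≃+* (Localization.AtPrime m ⧸ J)) := by
  have hle : P ≤ J.comap (algebraMap A (Localization.AtPrime m)) := hP.le
  have hPm : P ≤ m := by
    rw [hP]
    intro a ha
    have h1 := hJ (Ideal.mem_comap.1 ha)
    exact (IsLocalization.AtPrime.to_map_mem_maximal_iff (Localization.AtPrime m) m a).1 h1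
  let alg : Algebra (A ⧸ P) (Localization.AtPrime m ⧸ J) :=
    (Ideal.quotientMap J (algebraMap A (Localization.AtPrime m)) hle).toAlgebra
  have hmem : ∀ a : A, Ideal.Quotient.mk P a ∈ m.map (Ideal.Quotient.mk P) ↔ a ∈ m := by
    intro a
    rw [← Ideal.mem_comap, Ideal.comap_map_of_surjective _ Ideal.Quotient.mk_surjective, ← RingHom.ker_eq_comap_bot,
      Ideal.mk_ker, sup_eq_left.2 hPm]
  have hM : m.primeCompl.map (Ideal.Quotient.mk P) = (m.map (Ideal.Quotient.mk P)).primeCompl := by
    ext x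
    obtain ⟨a, rfl⟩ := Ideal.Quotient.mk_surjective x
    constructor
    · rintro ⟨b, hb, he⟩ h
      apply hb
      refine (hmem b).1 ?_
      rw [he]
      exact h
    · intro h
      exact ⟨a, fun ha => h ((hmem a).2 ha), rfl⟩
  have hloc : IsLocalization (m.primeCompl.map (Ideal.Quotient.mk P)) (Localization.AtPrime m ⧸ J) := by
    refine IsLocalization.of_surjective m.primeCompl (Localization.AtPrime m) (Ideal.Quotient.mk P)
      Ideal.Quotient.mk_surjective (Ideal.Quotient.mk J) Ideal.Quotient.mk_surjective rfl ?_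
    rw [Ideal.mk_ker, Ideal.mk_ker, hP, IsLocalization.map_under m.primeCompl]
  rw [hM] at hloc
  exact ⟨(IsLocalization.algEquiv (m.map (Ideal.Quotient.mk P)).primeCompl
    (Localization.AtPrime (m.map (Ideal.Quotient.mk P))) (Localization.AtPrime m ⧸ J)).toRingEquiv⟩

end Pool.Agent.Lib.MP_b197b4_ntX
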