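import Pool.Agent.Lib.MP_b197b4_ntX.X2
import Pool.Agent.Lib.MP_b197b4_ntX.X6

/-!
# The curve at one point
-/

set_option autoImplicit false

namespace Pool.Agent.Lib.MP_b197b4_ntX

open Polynomial IsLocalRing

/-- Powers of a sum of ideals. -/
theorem sup_pow_le {O : Type*} [CommRing O] (J K : Ideal O) (n : ℕ) : (J ⊔ K) ^ n ≤ J ⊔ K ^ n := by
  induction n with
  | zero => simp
  | succ n ih =>
    rw [pow_succ, pow_succ]
    refine (Ideal.mul_mono_left ih).trans ?_
    rw [Ideal.sup_mul, Ideal.mul_sup, Ideal.mul_sup]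
    refine sup_le (sup_le ?_ ?_) (sup_le ?_ ?_)
    · exact Ideal.mul_le_left.trans le_sup_left
    · exact Ideal.mul_le_left.trans le_sup_left
    · exact Ideal.mul_le_right.trans le_sup_left
    · exact le_sup_right

/-- The equations `x j = v j * g(y)` define a curve which is regular at the point `m`. -/
theorem exists_curve_at {k A : Type*} [Field k] [Infinite k] [CommRing A] [IsNoetherianRing A] [Algebra k A]
    {e : ℕ} (m : Ideal A) [m.IsMaximal] (y : A) (x : Fin e → A) (t : k) (hy : y - algebraMap k A t ∈ m)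
    (hx : ∀ j, x j ∈ m)
    (hgen : m ≤ Ideal.span (Set.range fun o : Option (Fin e) =>
        o.elim y x - algebraMap k A (o.elim t fun _ => 0)) ⊔ m ^ 2)
    (hdim : ringKrullDim (Localization.AtPrime m) = (e + 1 : ℕ)) (g : k[X]) (hg : g.eval t = 0)
    (v : Fin e → k) :
    ∃ P : Ideal A, P.IsPrime ∧ P ≤ m ∧ (∀ j, x j - algebraMap k A (v j) * aeval y g ∈ P) ∧
      (∀ h : k[X], h ≠ 0 → aeval y h ∉ P) ∧
      ∀ _ : (m.map (Ideal.Quotient.mk P)).IsPrime, ∃ _ : IsDomain (Localization.AtPrime (m.map (Ideal.Quotient.mk P))),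
        IsDiscreteValuationRing (Localization.AtPrime (m.map (Ideal.Quotient.mk P))) := by
  classical
  have hmax := (inferInstance : m.IsMaximal)
  set ι := algebraMap A (Localization.AtPrime m) with hι
  have hmem : ∀ a : A, ι a ∈ maximalIdeal (Localization.AtPrime m) ↔ a ∈ m := fun a =>
    IsLocalization.AtPrime.to_map_mem_maximal_iff (Localization.AtPrime m) m a
  -- values of polynomials at `y`
  have hval : ∀ q : k[X], ∃ b : A, aeval y q - algebraMap k A (q.eval t) = (y - algebraMap k A t) * b := by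
    intro q
    obtain ⟨r, hr⟩ := X_sub_C_dvd_sub_C_eval (a := t) (p := q)
    refine ⟨aeval y r, ?_⟩
    have := congrArg (aeval y) hr
    rwa [map_sub, aeval_C, map_mul, map_sub, aeval_C, aeval_X] at this
  obtain ⟨bg, hbg⟩ := hval g
  rw [hg, map_zero, sub_zero] at hbg
  set π := ι (y - algebraMap k A t) with hπ
  have hπm : π ∈ maximalIdeal (Localization.AtPrime m) := (hmem _).2 hy
  set w : Fin e → Localization.AtPrime m := fun j => ι (x j - algebraMap k A (v j) * aeval y g) with hw
  have hwm : ∀ j, w j ∈ maximalIdeal (Localization.AtPrime m) := by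
    intro j
    refine (hmem _).2 (sub_mem (hx j) (Ideal.mul_mem_left _ _ ?_))
    rw [hbg]
    exact Ideal.mul_mem_right _ _ hy
  set J := Ideal.span (Set.range w) with hJ
  have hJm : J ≤ maximalIdeal (Localization.AtPrime m) := by
    rw [hJ, Ideal.span_le]
    rintro _ ⟨j, rfl⟩
    exact hwm j
  have hsup : J ⊔ Ideal.span {π} = maximalIdeal (Localization.AtPrime m) := by
    apply le_antisymm
    · exact sup_le hJm ((Ideal.span_singleton_le_iff_mem _).2 hπm)
    · have hz : ∀ o : Option (Fin e), o.elim y x - algebraMap k A (o.elim t fun _ => 0) ∈ m := by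
        intro o
        rcases o with _ | j
        · exact hy
        · simpa using hx j
      rw [← span_local m _ hz hgen, Ideal.span_le]
      rintro _ ⟨o, rfl⟩
      rcases o with _ | j
      · exact Ideal.mem_sup_right (Ideal.mem_span_singleton_self _)
      · have h1 : ι (x j) = w j + ι (algebraMap k A (v j) * bg) * π := by
          rw [hw, hπ]
          simp only
          rw [← map_mul, ← map_add]
          congr 1
          rw [hbg]
          ring
        simp only [Option.elim_some, map_zero, sub_zero]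
        rw [SetLike.mem_coe, ← hι, h1]
        exact add_mem (Ideal.mem_sup_left (Ideal.subset_span ⟨j, rfl⟩))
          (Ideal.mem_sup_right (Ideal.mul_mem_left _ _ (Ideal.mem_span_singleton_self _)))
  have hpow : ∀ n : ℕ, π ^ n ∉ J := by
    intro n hn
    refine not_primary w hwm hdim (by simp) n ?_
    rw [← hsup]
    refine (sup_pow_le _ _ n).trans (sup_le le_rfl ?_)
    rw [Ideal.span_singleton_pow, Ideal.span_singleton_le_iff_mem]
    exact hn
  obtain ⟨hdom, hdvr, _⟩ := dvr_quot J π hsup hpow
  have hJp : J.IsPrime := (Ideal.Quotient.isDomain_iff_prime J).1 hdom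
  refine ⟨J.comap ι, Ideal.IsPrime.comap ι, ?_, ?_, ?_, ?_⟩
  · intro a ha
    exact (hmem a).1 (hJm ha)
  · intro j
    exact Ideal.subset_span ⟨j, rfl⟩
  · intro h hh hmemP
    obtain ⟨q, hq, hnd⟩ := h.exists_eq_pow_rootMultiplicity_mul_and_not_dvd hh t
    have hqt : q.eval t ≠ 0 := fun h0 => hnd (dvd_iff_isRoot.2 h0)
    obtain ⟨b, hb⟩ := hval q
    have hqm : aeval y q ∉ m := by
      intro hqm
      have h1 : algebraMap k A (q.eval t) ∈ m := by
        have h2 := sub_mem hqm (Ideal.mul_mem_right b m hy)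
        rw [← hb] at h2
        simpa using h2
      exact hmax.ne_top (Ideal.eq_top_of_isUnit_mem _ h1 ((IsUnit.mk0 _ hqt).map _))
    have hu : IsUnit (ι (aeval y q)) := by
      by_contra hnu
      exact hqm ((hmem _).1 ((mem_maximalIdeal _).2 hnu))
    have h1 : ι (aeval y h) ∈ J := hmemP
    rw [hq, map_mul, map_pow, map_sub, aeval_X, aeval_C, map_mul, map_pow] at h1
    exact hpow _ ((Ideal.mul_unit_mem_iff_mem _ hu).1 h1)
  · intro hpr
    obtain ⟨φ⟩ := dvr_localization m J hJm (J.comap ι) rfl
    have hd : IsDomain (Localization.AtPrime (m.map (Ideal.Quotient.mk (J.comap ι)))) :=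
      MulEquiv.isDomain _ φ.toMulEquiv
    exact ⟨hd, IsDiscreteValuationRing.RingEquivClass.isDiscreteValuationRing φ.symm⟩

end Pool.Agent.Lib.MP_b197b4_ntX
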