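import Pool.Agent.Lib.MP_b197b4_ntX.X1
import Pool.Agent.Lib.MP_b197b4_ntX.X7c
import Pool.Agent.Lib.MP_b197b4_ntX.X7d
import Pool.Agent.Lib.MP_b197b4_ntD.Dim

/-!
# Irreducible curves through given regular points, avoiding other points
-/

universe u

namespace Pool.Agent.Lib.MP_b197b4_ntX

open Polynomial

/-- The maximal ideal of a discrete valuation ring is not its square. -/
theorem not_le_sup_sq {A : Type*} [CommRing A] (P m : Ideal A) [P.IsPrime] [m.IsMaximal] (hPm : P ≤ m)
    (hdvr : ∀ _ : (m.map (Ideal.Quotient.mk P)).IsPrime,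
      ∃ _ : IsDomain (Localization.AtPrime (m.map (Ideal.Quotient.mk P))),
        IsDiscreteValuationRing (Localization.AtPrime (m.map (Ideal.Quotient.mk P)))) : ¬ m ≤ P ⊔ m ^ 2 := by
  intro h
  have hmax : (m.map (Ideal.Quotient.mk P)).IsMaximal := by
    rcases Ideal.map_eq_top_or_isMaximal_of_surjective (Ideal.Quotient.mk P) Ideal.Quotient.mk_surjective
      (inferInstance : m.IsMaximal) with h1 | h1
    · exfalso
      have h2 : (m.map (Ideal.Quotient.mk P)).comap (Ideal.Quotient.mk P) = ⊤ := by rw [h1, Ideal.comap_top]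
      rw [Ideal.comap_map_of_surjective _ Ideal.Quotient.mk_surjective, ← RingHom.ker_eq_comap_bot, Ideal.mk_ker,
        sup_eq_left.2 hPm] at h2
      exact (inferInstance : m.IsMaximal).ne_top h2
    · exact h1
  have hprime := hmax.isPrime
  obtain ⟨hdom, hd⟩ := hdvr hprime
  have h1 : m.map (Ideal.Quotient.mk P) ≤ (m.map (Ideal.Quotient.mk P)) ^ 2 := by
    have h2 := Ideal.map_mono (f := Ideal.Quotient.mk P) h
    rw [Ideal.map_sup, Ideal.map_pow, Ideal.map_quotient_self, bot_sup_eq] at h2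
    exact h2
  have h3 := Ideal.map_mono (f := algebraMap (A ⧸ P) (Localization.AtPrime (m.map (Ideal.Quotient.mk P)))) h1
  rw [Ideal.map_pow, Localization.AtPrime.map_eq_maximalIdeal] at h3
  have h4 : IsLocalRing.maximalIdeal (Localization.AtPrime (m.map (Ideal.Quotient.mk P))) = ⊥ := by
    refine Submodule.eq_bot_of_le_smul_of_le_jacobson_bot _ _ (IsNoetherian.noetherian _) ?_
      (IsLocalRing.maximalIdeal_le_jacobson _)
    rw [smul_eq_mul, ← pow_two]
    exact h3
  exact IsDiscreteValuationRing.not_a_field _ h4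

/-- **Irreducible curves through given points.**  `A` is the coordinate ring of an affine variety over an algebraically
closed field, `Ms` a finite nonempty set of regular points at which `A` has dimension `d ≥ 2`, `Ts` another finite set of
points, and `z m` is an element of `m` which is not in `m ^ 2`, for every `m` in `Ms`.  Then there is an irreducible
curve through all points of `Ms` and none of `Ts`, which is regular at the points of `Ms` and on which `z m` is a local
parameter at `m`. -/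
theorem exists_curve_final {k A : Type u} [Field k] [IsAlgClosed k] [CommRing A] [IsDomain A] [Algebra k A]
    [Algebra.FiniteType k A] (d : ℕ) (hd : 2 ≤ d) (Ms Ts : Finset (Ideal A)) (hne : Ms.Nonempty)
    (hMs : ∀ m ∈ Ms, m.IsMaximal) (hTs : ∀ m ∈ Ts, m.IsMaximal) (hdis : Disjoint Ms Ts) (z : Ideal A → A)
    (hreg : ∀ m ∈ Ms, ∀ _ : m.IsPrime, IsRegularLocalRing (Localization.AtPrime m) ∧
      ringKrullDim (Localization.AtPrime m) = d)
    (hz : ∀ m ∈ Ms, z m ∈ m ∧ z m ∉ m ^ 2) :
    ∃ P : Ideal A, P.IsPrime ∧ ringKrullDim (A ⧸ P) = 1 ∧ MP_b197b4_ntD.HasDim k (A ⧸ P) 1 ∧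
      (∀ m ∈ Ms, P ≤ m ∧ z m ∉ P ⊔ m ^ 2 ∧ ∀ _ : (m.map (Ideal.Quotient.mk P)).IsPrime,
        ∃ _ : IsDomain (Localization.AtPrime (m.map (Ideal.Quotient.mk P))),
          IsDiscreteValuationRing (Localization.AtPrime (m.map (Ideal.Quotient.mk P)))) ∧
      ∀ t ∈ Ts, ¬ P ≤ t := by
  classical
  have : Infinite k := IsAlgClosed.instInfinite
  have hnoeth : IsNoetherianRing A := Algebra.FiniteType.isNoetherianRing k A
  obtain ⟨e, rfl⟩ : ∃ e, d = e + 1 := ⟨d - 1, by omega⟩
  have he : 0 < e := by omega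
  obtain ⟨y, x, t, ht, hy, hx, hgen, hyz⟩ := exists_coord_given (k := k) e Ms Ts hMs hTs hdis hreg z hz
  -- the polynomial `g`
  obtain ⟨g, hgM, hgT, hg0⟩ : ∃ g : k[X], (∀ m ∈ Ms, g.eval (t m) = 0) ∧ (∀ τ ∈ Ts, g.eval (t τ) ≠ 0) ∧ g ≠ 0 := by
    refine ⟨∏ m ∈ Ms, (X - C (t m)), ?_, ?_, ?_⟩
    · intro m hm
      rw [eval_prod]
      exact Finset.prod_eq_zero hm (by simp)
    · intro τ hτ
      rw [eval_prod, Finset.prod_ne_zero_iff]
      intro m hm
      rw [eval_sub, eval_X, eval_C, sub_ne_zero]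
      intro h
      refine ht m hm τ (Or.inr hτ) ?_ h.symm
      rintro rfl
      exact Finset.disjoint_left.1 hdis hm hτ
    · rw [Finset.prod_ne_zero_iff]
      intro m hm
      exact X_sub_C_ne_zero _
  have hval : ∀ m : Ideal A, m.IsMaximal → ∀ s : k, y - algebraMap k A s ∈ m → ∀ q : k[X],
      aeval y q - algebraMap k A (q.eval s) ∈ m := by
    intro m _ s hs q
    obtain ⟨r, hr⟩ := X_sub_C_dvd_sub_C_eval (a := s) (p := q)
    have h1 := congrArg (aeval y) hr
    rw [map_sub, map_mul, map_sub, aeval_X, aeval_C, aeval_C] at h1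
    rw [h1]
    exact m.mul_mem_right _ hs
  -- the values of a coordinate at the points of `Ts`
  have hw : ∀ τ : Ideal A, ∃ w : k, τ ∈ Ts → x ⟨0, he⟩ - algebraMap k A w ∈ τ := by
    intro τ
    by_cases hτ : τ ∈ Ts
    · obtain ⟨w, hw⟩ := exists_value (k := k) (hTs τ hτ) (x ⟨0, he⟩)
      exact ⟨w, fun _ => hw⟩
    · exact ⟨0, fun h => absurd h hτ⟩
  choose w hw using hw
  -- the condition on the parameters
  have hh₀ : (∏ τ ∈ Ts, (MvPolynomial.C (w τ) - MvPolynomial.X ⟨0, he⟩ * MvPolynomial.C (g.eval (t τ))) :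
      MvPolynomial (Fin e) k) ≠ 0 := by
    rw [Finset.prod_ne_zero_iff]
    intro τ hτ h
    have h1 := congrArg (MvPolynomial.eval (fun _ => (w τ - 1) / g.eval (t τ))) h
    rw [map_sub, map_mul, MvPolynomial.eval_C, MvPolynomial.eval_C, MvPolynomial.eval_X, map_zero,
      div_mul_cancel₀ _ (hgT τ hτ)] at h1
    simp at h1
  obtain ⟨m₁, hm₁⟩ := hne
  have hmax₁ := hMs m₁ hm₁
  obtain ⟨v, P, hv, hP, hPx, hPy, hPu⟩ := exists_unique_prime (k := k) m₁ y x (t m₁) (hy m₁ (Or.inl hm₁)) (hx m₁ hm₁)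
    (fun a => exists_value hmax₁ a) (hgen m₁ hm₁) (hreg m₁ hm₁ hmax₁.isPrime).2 g (hgM m₁ hm₁) hg0 _ hh₀
  have hall : ∀ m ∈ Ms, P ≤ m ∧ ∀ _ : (m.map (Ideal.Quotient.mk P)).IsPrime,
        ∃ _ : IsDomain (Localization.AtPrime (m.map (Ideal.Quotient.mk P))),
          IsDiscreteValuationRing (Localization.AtPrime (m.map (Ideal.Quotient.mk P))) := by
    intro m hm
    have hmax := hMs m hm
    obtain ⟨P', hP', hle, hxP, hyP, hdvr⟩ := exists_curve_at (k := k) m y x (t m) (hy m (Or.inl hm)) (hx m hm)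
      (hgen m hm) (hreg m hm hmax.isPrime).2 g (hgM m hm) v
    obtain rfl := hPu P' hP' hxP hyP
    exact ⟨hle, hdvr⟩
  have hHD : MP_b197b4_ntD.HasDim k (A ⧸ P) 1 := by
    obtain ⟨s, hs⟩ := MP_b197b4_ntD.exists_hasDim k (A ⧸ P)
    obtain ⟨hle, hdvr⟩ := hall m₁ hm₁
    have hmax : (m₁.map (Ideal.Quotient.mk P)).IsMaximal := by
      rcases Ideal.map_eq_top_or_isMaximal_of_surjective (Ideal.Quotient.mk P) Ideal.Quotient.mk_surjective
        hmax₁ with h1 | h1
      · exfalso
        have h2 : (m₁.map (Ideal.Quotient.mk P)).comap (Ideal.Quotient.mk P) = ⊤ := by rw [h1, Ideal.comap_top]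
        rw [Ideal.comap_map_of_surjective _ Ideal.Quotient.mk_surjective, ← RingHom.ker_eq_comap_bot, Ideal.mk_ker,
          sup_eq_left.2 hle] at h2
        exact hmax₁.ne_top h2
      · exact h1
    have hprime := hmax.isPrime
    obtain ⟨hdom, hd'⟩ := hdvr hprime
    have h3 : (m₁.map (Ideal.Quotient.mk P)).height = s := hs.height _ hmax
    have h4 : ringKrullDim (Localization.AtPrime (m₁.map (Ideal.Quotient.mk P))) =
        (m₁.map (Ideal.Quotient.mk P)).height :=
      IsLocalization.AtPrime.ringKrullDim_eq_height (m₁.map (Ideal.Quotient.mk P)) _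
    have h5 : ringKrullDim (Localization.AtPrime (m₁.map (Ideal.Quotient.mk P))) = 1 :=
      IsPrincipalIdealRing.ringKrullDim_eq_one _ (IsDiscreteValuationRing.not_isField _)
    rw [h3, h5] at h4
    have h6 : s = 1 := by
      have : ((1 : ℕ∞) : WithBot ℕ∞) = ((s : ℕ∞) : WithBot ℕ∞) := h4
      have h7 := WithBot.coe_injective this
      exact_mod_cast h7.symm
    rw [h6] at hs
    exact hs
  refine ⟨P, hP, by simpa using hHD.ringKrullDim, hHD, fun m hm => ⟨(hall m hm).1, ?_, (hall m hm).2⟩, ?_⟩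
  · intro hzm
    have hmax := hMs m hm
    refine not_le_sup_sq P m (hall m hm).1 (hall m hm).2 ?_
    have hy2 : y - algebraMap k A (t m) ∈ P ⊔ m ^ 2 := by
      have h1 : y - algebraMap k A (t m) = z m + (y - algebraMap k A (t m) - z m) := by ring
      rw [h1]
      exact add_mem hzm (le_sup_right (a := P) (hyz m hm))
    refine (hgen m hm).trans (sup_le ?_ le_sup_right)
    rw [Ideal.span_le]
    rintro _ ⟨o, rfl⟩
    cases o with
    | none => exact hy2
    | some j =>
      have h1 : x j = (x j - algebraMap k A (v j) * aeval y g) + algebraMap k A (v j) * aeval y g := by ring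
      obtain ⟨r, hr⟩ := dvd_iff_isRoot.2 (hgM m hm)
      have h2 : aeval y g = (y - algebraMap k A (t m)) * aeval y r := by
        conv_lhs => rw [hr]
        rw [map_mul, map_sub, aeval_X, aeval_C]
      show x j - algebraMap k A 0 ∈ P ⊔ m ^ 2
      rw [map_zero, sub_zero, h1]
      refine add_mem (le_sup_left (a := P) (hPx j)) (Ideal.mul_mem_left _ _ ?_)
      rw [h2]
      exact Ideal.mul_mem_right _ _ hy2
  · intro τ hτ hle
    have hmax := hTs τ hτ
    have h1 := hle (hPx ⟨0, he⟩)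
    have h2 := hval τ hmax (t τ) (hy τ (Or.inr hτ)) g
    have h3 := hw τ hτ
    have h4 : algebraMap k A (w τ - v ⟨0, he⟩ * g.eval (t τ)) ∈ τ := by
      have h5 : algebraMap k A (w τ - v ⟨0, he⟩ * g.eval (t τ)) =
          (x ⟨0, he⟩ - algebraMap k A (v ⟨0, he⟩) * aeval y g) - (x ⟨0, he⟩ - algebraMap k A (w τ)) +
            algebraMap k A (v ⟨0, he⟩) * (aeval y g - algebraMap k A (g.eval (t τ))) := by
        rw [map_sub, map_mul]
        ring
      rw [h5]
      exact add_mem (sub_mem h1 h3) (Ideal.mul_mem_left _ _ h2)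
    have h6 : w τ - v ⟨0, he⟩ * g.eval (t τ) ≠ 0 := by
      intro h
      apply hv
      rw [map_prod]
      refine Finset.prod_eq_zero hτ ?_
      rw [map_sub, map_mul, MvPolynomial.eval_C, MvPolynomial.eval_C, MvPolynomial.eval_X]
      exact h
    exact hmax.ne_top (Ideal.eq_top_of_isUnit_mem _ h4 ((IsUnit.mk0 _ h6).map (algebraMap k A)))

end Pool.Agent.Lib.MP_b197b4_ntX
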