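import Mathlib

/-!
# Coordinates (Chinese remainder theorem)
-/

set_option autoImplicit false

universe u

namespace Pool.Agent.Lib.MP_b197b4_ntX

open IsLocalRing

/-- Nullstellensatz: the residue fields of the maximal ideals are `k`. -/
theorem exists_value {k A : Type*} [Field k] [IsAlgClosed k] [CommRing A] [Algebra k A]
    [Algebra.FiniteType k A] {m : Ideal A} (hm : m.IsMaximal) (a : A) :
    ∃ r : k, a - algebraMap k A r ∈ m := by
  let : Field (A ⧸ m) := Ideal.Quotient.field m
  have : Module.Finite k (A ⧸ m) := finite_of_finite_type_of_isJacobsonRing k (A ⧸ m)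
  have h1 : Function.Bijective (algebraMap k (A ⧸ m)) :=
    IsAlgClosed.algebraMap_bijective_of_isIntegral
  obtain ⟨r, hr⟩ := h1.2 (Ideal.Quotient.mk m a)
  refine ⟨r, ?_⟩
  rw [← Ideal.Quotient.eq, ← hr]
  rfl

/-- Local parameters in `m` at a regular point. -/
theorem exists_params {k A : Type*} [Field k] [IsAlgClosed k] [CommRing A] [Algebra k A]
    [Algebra.FiniteType k A] {ι : Type*} [Fintype ι] {m : Ideal A} (hm : m.IsMaximal)
    (hreg : ∀ _ : m.IsPrime, IsRegularLocalRing (Localization.AtPrime m) ∧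
      ringKrullDim (Localization.AtPrime m) = (Fintype.card ι : ℕ)) :
    ∃ z : ι → A, (∀ i, z i ∈ m) ∧ m ≤ Ideal.span (Set.range z) ⊔ m ^ 2 := by
  classical
  have hmp : m.IsPrime := hm.isPrime
  obtain ⟨hr, hdim⟩ := hreg hmp
  let O := Localization.AtPrime m
  have hsp : (maximalIdeal O).spanFinrank = Fintype.card ι := by
    have h1 := IsRegularLocalRing.spanFinrank_maximalIdeal (R := O)
    rw [hdim] at h1
    exact_mod_cast h1
  have hfg : (maximalIdeal O).FG := IsNoetherian.noetherian _
  have h2 := Submodule.FG.generators_ncard hfg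
  rw [hsp] at h2
  have hfin : (Submodule.generators (maximalIdeal O)).Finite :=
    Submodule.FG.finite_generators hfg
  have h3 : Nat.card (Submodule.generators (maximalIdeal O)) = Fintype.card ι := h2
  have : Finite (Submodule.generators (maximalIdeal O)) := hfin
  obtain ⟨ε⟩ : Nonempty (ι ≃ Submodule.generators (maximalIdeal O)) :=
    Finite.card_eq.1 (by rw [h3, Nat.card_eq_fintype_card])
  have hgen : Ideal.span (Set.range fun i => (ε i : O)) = maximalIdeal O := by
    have h4 : (Set.range fun i => (ε i : O)) = Submodule.generators (maximalIdeal O) := by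
      ext t
      constructor
      · rintro ⟨i, rfl⟩
        exact (ε i).2
      · intro ht
        exact ⟨ε.symm ⟨t, ht⟩, by simp⟩
    rw [h4]
    exact Submodule.span_generators _
  -- clear denominators
  have hden : ∀ i, ∃ (a : A) (s : m.primeCompl), (ε i : O) * algebraMap A O s = algebraMap A O a := by
    intro i
    obtain ⟨⟨a, s⟩, h⟩ := IsLocalization.surj m.primeCompl (ε i : O)
    exact ⟨a, s, h⟩
  choose z s hzs using hden
  have hz : ∀ i, z i ∈ m := by
    intro i
    have h4 : algebraMap A O (z i) ∈ maximalIdeal O := by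
      rw [← hzs i]
      exact Ideal.mul_mem_right _ _ (Submodule.FG.generators_mem _ (ε i).2)
    exact (IsLocalization.AtPrime.to_map_mem_maximal_iff O m (z i)).1 h4
  refine ⟨z, hz, fun b hb => ?_⟩
  have hb1 : algebraMap A O b ∈ (Ideal.span (Set.range z)).map (algebraMap A O) := by
    have h4 : algebraMap A O b ∈ maximalIdeal O :=
      (IsLocalization.AtPrime.to_map_mem_maximal_iff O m b).2 hb
    have h5 : maximalIdeal O ≤ (Ideal.span (Set.range z)).map (algebraMap A O) := by
      rw [← hgen, Ideal.span_le]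
      rintro _ ⟨i, rfl⟩
      have h6 : (ε i : O) * algebraMap A O (s i) ∈
          (Ideal.span (Set.range z)).map (algebraMap A O) := by
        rw [hzs i]
        exact Ideal.mem_map_of_mem _ (Ideal.subset_span ⟨i, rfl⟩)
      exact (Ideal.mul_unit_mem_iff_mem _ (IsLocalization.map_units O (s i))).1 h6
    exact h5 h4
  obtain ⟨t, ht, htb⟩ : ∃ t ∉ m, t * b ∈ Ideal.span (Set.range z) := by
    rw [IsLocalization.mem_map_algebraMap_iff m.primeCompl] at hb1
    obtain ⟨⟨⟨a, ha⟩, s⟩, h⟩ := hb1
    simp only at h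
    rw [← map_mul, IsLocalization.eq_iff_exists m.primeCompl] at h
    obtain ⟨c, hc⟩ := h
    refine ⟨c * s, ?_, ?_⟩
    · exact (c * s).2
    · have h6 : (c : A) * s * b = c * (b * s) := by ring
      rw [h6, hc]
      exact Ideal.mul_mem_left _ _ ha
  obtain ⟨r, hr'⟩ := exists_value (k := k) hm t
  have hr0 : r ≠ 0 := by
    rintro rfl
    rw [map_zero, sub_zero] at hr'
    exact ht hr'
  have h7 : b = algebraMap k A r⁻¹ * (t * b) -
      algebraMap k A r⁻¹ * ((t - algebraMap k A r) * b) := by
    have h8 : algebraMap k A r⁻¹ * algebraMap k A r = 1 := by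
      rw [← map_mul, inv_mul_cancel₀ hr0, map_one]
    linear_combination (-b) * h8
  rw [h7]
  refine Ideal.sub_mem _ (Ideal.mem_sup_left (Ideal.mul_mem_left _ _ htb))
    (Ideal.mem_sup_right (Ideal.mul_mem_left _ _ ?_))
  rw [pow_two]
  exact Ideal.mul_mem_mul hr' hb

/-- Local parameters at a regular point, the first one given. -/
theorem exists_params_given {k A : Type*} [Field k] [IsAlgClosed k] [CommRing A] [Algebra k A]
    [Algebra.FiniteType k A] {ι : Type*} [Fintype ι] {m : Ideal A} (hm : m.IsMaximal)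
    (hreg : ∀ _ : m.IsPrime, IsRegularLocalRing (Localization.AtPrime m) ∧
      ringKrullDim (Localization.AtPrime m) = (Fintype.card ι : ℕ)) (i₀ : ι) {y : A} (hy : y ∈ m)
    (hy2 : y ∉ m ^ 2) :
    ∃ z : ι → A, (∀ i, z i ∈ m) ∧ m ≤ Ideal.span (Set.range z) ⊔ m ^ 2 ∧ z i₀ = y := by
  classical
  obtain ⟨w, hw, hgen⟩ := exists_params (k := k) hm hreg
  -- coordinates of `y`
  have hc : ∃ c : ι → k, y - ∑ i, algebraMap k A (c i) * w i ∈ m ^ 2 := by
    obtain ⟨u, hu, v, hv, huv⟩ := Submodule.mem_sup.1 (hgen hy)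
    obtain ⟨a, ha⟩ := (Ideal.mem_span_range_iff_exists_fun).1 hu
    choose c hc using fun i => exists_value (k := k) hm (a i)
    refine ⟨c, ?_⟩
    have h1 : y - ∑ i, algebraMap k A (c i) * w i =
        ∑ i, (a i - algebraMap k A (c i)) * w i + v := by
      rw [← huv, ← ha]
      simp only [sub_mul, Finset.sum_sub_distrib]
      ring
    rw [h1]
    refine Ideal.add_mem _ (Ideal.sum_mem _ fun i _ => ?_) hv
    rw [pow_two]
    exact Ideal.mul_mem_mul (hc i) (hw i)
  obtain ⟨c, hc⟩ := hc
  obtain ⟨j, hj⟩ : ∃ j, c j ≠ 0 := by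
    by_contra h
    push Not at h
    apply hy2
    have h1 : ∑ i, algebraMap k A (c i) * w i = 0 :=
      Finset.sum_eq_zero fun i _ => by rw [h i, map_zero, zero_mul]
    rw [h1, sub_zero] at hc
    exact hc
  -- replace `w j` by `y` and exchange `i₀` and `j`
  let w' : ι → A := Function.update w j y
  let σ : Equiv.Perm ι := Equiv.swap i₀ j
  have hw' : ∀ i, w' i ∈ m := by
    intro i
    rcases eq_or_ne i j with rfl | h
    · simpa [w'] using hy
    · simpa [w', Function.update_of_ne h] using hw i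
  have hspan : Ideal.span (Set.range (w' ∘ σ)) = Ideal.span (Set.range w') := by
    rw [EquivLike.range_comp w' σ]
  refine ⟨w' ∘ σ, fun i => hw' _, ?_, ?_⟩
  · rw [hspan]
    refine hgen.trans (sup_le ?_ le_sup_right)
    rw [Ideal.span_le]
    rintro _ ⟨i, rfl⟩
    rcases eq_or_ne i j with rfl | h
    · have h1 : w i = algebraMap k A (c i)⁻¹ * (y - ∑ l ∈ Finset.univ.erase i,
          algebraMap k A (c l) * w l) - algebraMap k A (c i)⁻¹ *
            (y - ∑ l, algebraMap k A (c l) * w l) := by
        have h2 : algebraMap k A (c i)⁻¹ * algebraMap k A (c i) = 1 := by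
          rw [← map_mul, inv_mul_cancel₀ hj, map_one]
        rw [← Finset.add_sum_erase Finset.univ (fun l => algebraMap k A (c l) * w l)
          (Finset.mem_univ i)]
        linear_combination (-w i) * h2
      show w i ∈ _
      rw [h1]
      refine Ideal.sub_mem _ (Ideal.mem_sup_left (Ideal.mul_mem_left _ _ (Ideal.sub_mem _ ?_ ?_)))
        (Ideal.mem_sup_right (Ideal.mul_mem_left _ _ hc))
      · exact Ideal.subset_span ⟨i, by simp [w']⟩
      · refine Ideal.sum_mem _ fun l hl => Ideal.mul_mem_left _ _ (Ideal.subset_span ⟨l, ?_⟩)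
        simp [w', Function.update_of_ne (Finset.ne_of_mem_erase hl)]
    · exact Ideal.mem_sup_left (Ideal.subset_span ⟨i, by simp [w', Function.update_of_ne h]⟩)
  · simp [w', σ]

/-- `exists_coord` with given uniformizers `z m` at the points of `Ms`: `y - t m - z m` is in
`m ^ 2`. -/
theorem exists_coord_given {k A : Type u} [Field k] [IsAlgClosed k] [CommRing A] [Algebra k A]
    [Algebra.FiniteType k A] (e : ℕ) (Ms Ts : Finset (Ideal A)) (hMs : ∀ m ∈ Ms, m.IsMaximal)
    (hTs : ∀ m ∈ Ts, m.IsMaximal) (hdis : Disjoint Ms Ts)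
    (hreg : ∀ m ∈ Ms, ∀ _ : m.IsPrime, IsRegularLocalRing (Localization.AtPrime m) ∧
      ringKrullDim (Localization.AtPrime m) = (e + 1 : ℕ)) (u : Ideal A → A)
    (hu : ∀ m ∈ Ms, u m ∈ m ∧ u m ∉ m ^ 2) :
    ∃ (y : A) (x : Fin e → A) (t : Ideal A → k),
      (∀ m ∈ Ms, ∀ m', m' ∈ Ms ∨ m' ∈ Ts → m ≠ m' → t m ≠ t m') ∧
      (∀ m, m ∈ Ms ∨ m ∈ Ts → y - algebraMap k A (t m) ∈ m) ∧ (∀ m ∈ Ms, ∀ j, x j ∈ m) ∧
      (∀ m ∈ Ms, m ≤ Ideal.span (Set.range fun o : Option (Fin e) =>
        o.elim y x - algebraMap k A (o.elim (t m) fun _ => 0)) ⊔ m ^ 2) ∧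
      ∀ m ∈ Ms, y - algebraMap k A (t m) - u m ∈ m ^ 2 := by
  classical
  have _ := hdis
  have : Infinite k := IsAlgClosed.instInfinite
  let S := Ms ∪ Ts
  have hS : ∀ m : S, m.1.IsMaximal := fun m => by
    rcases Finset.mem_union.1 m.2 with h | h
    · exact hMs _ h
    · exact hTs _ h
  -- distinct values
  let N := Infinite.natEmbedding k
  let ε := S.equivFin
  let t : Ideal A → k := fun m => if h : m ∈ S then N (ε ⟨m, h⟩) else 0
  have ht : ∀ m ∈ S, ∀ m' ∈ S, t m = t m' → m = m' := by
    intro m hm m' hm' h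
    simp only [t, dif_pos hm, dif_pos hm'] at h
    have h1 := N.injective h
    have h2 := ε.injective (Fin.ext h1)
    exact congrArg Subtype.val h2
  -- local parameters
  have hz : ∀ m : Ideal A, ∃ z : Option (Fin e) → A,
      m ∈ Ms → (∀ i, z i ∈ m) ∧ m ≤ Ideal.span (Set.range z) ⊔ m ^ 2 ∧ z none = u m := by
    intro m
    by_cases hm : m ∈ Ms
    · obtain ⟨z, hz⟩ := exists_params_given (k := k) (ι := Option (Fin e)) (hMs m hm) (fun h => by
        have := hreg m hm h
        simpa using this) none (hu m hm).1 (hu m hm).2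
      exact ⟨z, fun _ => hz⟩
    · exact ⟨0, fun h => absurd h hm⟩
  choose z hz using hz
  have hcop : Pairwise (Function.onFun IsCoprime fun m : S => m.1 ^ 2) := by
    intro m m' hne
    have h1 : IsCoprime m.1 m'.1 := by
      rw [Ideal.isCoprime_iff_sup_eq]
      exact (hS m).coprime_of_ne (hS m') (fun h => hne (Subtype.ext h))
    exact IsCoprime.pow h1
  have hCRT : ∀ g : Ideal A → A, ∃ r : A, ∀ m ∈ S, r - g m ∈ m ^ 2 := by
    intro g
    obtain ⟨r, hr⟩ := Ideal.exists_forall_sub_mem_ideal hcop (fun m => g m.1)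
    exact ⟨r, fun m hm => hr ⟨m, hm⟩⟩
  have hsq : ∀ m : Ideal A, m ^ 2 ≤ m := fun m => Ideal.pow_le_self two_ne_zero
  obtain ⟨y, hy⟩ := hCRT fun m => algebraMap k A (t m) + if m ∈ Ms then z m none else 0
  have hx : ∀ j : Fin e, ∃ r : A, ∀ m ∈ S, r - z m (some j) ∈ m ^ 2 := fun j => hCRT _
  choose x hx using hx
  refine ⟨y, x, t, ?_, ?_, ?_, ?_, ?_⟩
  · intro m hm m' hm' hne h
    exact hne (ht m (Finset.mem_union_left _ hm) m' (Finset.mem_union.2 hm') h)
  · intro m hm
    have h1 := hsq m (hy m (Finset.mem_union.2 hm))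
    by_cases hmM : m ∈ Ms
    · rw [if_pos hmM] at h1
      have h2 := (hz m hmM).1 none
      have h3 := Ideal.add_mem _ h1 h2
      convert h3 using 1
      ring
    · rw [if_neg hmM, add_zero] at h1
      exact h1
  · intro m hm j
    have h1 := hsq m (hx j m (Finset.mem_union_left _ hm))
    have h3 := Ideal.add_mem _ h1 ((hz m hm).1 (some j))
    convert h3 using 1
    ring
  · intro m hm
    have hmS : m ∈ S := Finset.mem_union_left _ hm
    refine (hz m hm).2.1.trans (sup_le ?_ le_sup_right)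
    rw [Ideal.span_le]
    rintro _ ⟨o, rfl⟩
    have h1 : o.elim y x - algebraMap k A (o.elim (t m) fun _ => 0) - z m o ∈ m ^ 2 := by
      cases o with
      | none =>
        have h2 := hy m hmS
        rw [if_pos hm] at h2
        simp only [Option.elim_none]
        convert h2 using 1
        ring
      | some j =>
        simpa using hx j m hmS
    have h2 : z m o = (o.elim y x - algebraMap k A (o.elim (t m) fun _ => 0)) -
        (o.elim y x - algebraMap k A (o.elim (t m) fun _ => 0) - z m o) := by ring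
    show z m o ∈ _
    rw [h2]
    exact Ideal.sub_mem _ (Ideal.mem_sup_left (Ideal.subset_span ⟨o, rfl⟩))
      (Ideal.mem_sup_right h1)
  · intro m hm
    have h2 := hy m (Finset.mem_union_left _ hm)
    rw [if_pos hm, (hz m hm).2.2] at h2
    convert h2 using 1
    ring

/-- Coordinates `y`, `x j` which are local parameters at the given regular points `m` in `Ms` (where the `x j` vanish), and
such that `y` has different values at all the points of `Ms` and `Ts`. -/
theorem exists_coord {k A : Type u} [Field k] [IsAlgClosed k] [CommRing A] [Algebra k A] [Algebra.FiniteType k A]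
    (e : ℕ) (Ms Ts : Finset (Ideal A)) (hMs : ∀ m ∈ Ms, m.IsMaximal) (hTs : ∀ m ∈ Ts, m.IsMaximal)
    (hdis : Disjoint Ms Ts)
    (hreg : ∀ m ∈ Ms, ∀ _ : m.IsPrime, IsRegularLocalRing (Localization.AtPrime m) ∧
      ringKrullDim (Localization.AtPrime m) = (e + 1 : ℕ)) :
    ∃ (y : A) (x : Fin e → A) (t : Ideal A → k),
      (∀ m ∈ Ms, ∀ m', m' ∈ Ms ∨ m' ∈ Ts → m ≠ m' → t m ≠ t m') ∧
      (∀ m, m ∈ Ms ∨ m ∈ Ts → y - algebraMap k A (t m) ∈ m) ∧ (∀ m ∈ Ms, ∀ j, x j ∈ m) ∧
      ∀ m ∈ Ms, m ≤ Ideal.span (Set.range fun o : Option (Fin e) =>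
        o.elim y x - algebraMap k A (o.elim (t m) fun _ => 0)) ⊔ m ^ 2 := by
  classical
  have _ := hdis
  have : Infinite k := IsAlgClosed.instInfinite
  let S := Ms ∪ Ts
  have hS : ∀ m : S, m.1.IsMaximal := fun m => by
    rcases Finset.mem_union.1 m.2 with h | h
    · exact hMs _ h
    · exact hTs _ h
  -- distinct values
  let N := Infinite.natEmbedding k
  let ε := S.equivFin
  let t : Ideal A → k := fun m => if h : m ∈ S then N (ε ⟨m, h⟩) else 0
  have ht : ∀ m ∈ S, ∀ m' ∈ S, t m = t m' → m = m' := by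
    intro m hm m' hm' h
    simp only [t, dif_pos hm, dif_pos hm'] at h
    have h1 := N.injective h
    have h2 := ε.injective (Fin.ext h1)
    exact congrArg Subtype.val h2
  -- local parameters
  have hz : ∀ m : Ideal A, ∃ z : Option (Fin e) → A,
      m ∈ Ms → (∀ i, z i ∈ m) ∧ m ≤ Ideal.span (Set.range z) ⊔ m ^ 2 := by
    intro m
    by_cases hm : m ∈ Ms
    · obtain ⟨z, hz⟩ := exists_params (k := k) (ι := Option (Fin e)) (hMs m hm) (fun h => by
        have := hreg m hm h
        simpa using this)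
      exact ⟨z, fun _ => hz⟩
    · exact ⟨0, fun h => absurd h hm⟩
  choose z hz using hz
  have hcop : Pairwise (Function.onFun IsCoprime fun m : S => m.1 ^ 2) := by
    intro m m' hne
    have h1 : IsCoprime m.1 m'.1 := by
      rw [Ideal.isCoprime_iff_sup_eq]
      exact (hS m).coprime_of_ne (hS m') (fun h => hne (Subtype.ext h))
    exact IsCoprime.pow h1
  have hCRT : ∀ g : Ideal A → A, ∃ r : A, ∀ m ∈ S, r - g m ∈ m ^ 2 := by
    intro g
    obtain ⟨r, hr⟩ := Ideal.exists_forall_sub_mem_ideal hcop (fun m => g m.1)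
    exact ⟨r, fun m hm => hr ⟨m, hm⟩⟩
  have hsq : ∀ m : Ideal A, m ^ 2 ≤ m := fun m => Ideal.pow_le_self two_ne_zero
  obtain ⟨y, hy⟩ := hCRT fun m => algebraMap k A (t m) + if m ∈ Ms then z m none else 0
  have hx : ∀ j : Fin e, ∃ r : A, ∀ m ∈ S, r - z m (some j) ∈ m ^ 2 := fun j => hCRT _
  choose x hx using hx
  refine ⟨y, x, t, ?_, ?_, ?_, ?_⟩
  · intro m hm m' hm' hne h
    exact hne (ht m (Finset.mem_union_left _ hm) m' (Finset.mem_union.2 hm') h)
  · intro m hm
    have h1 := hsq m (hy m (Finset.mem_union.2 hm))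
    by_cases hmM : m ∈ Ms
    · rw [if_pos hmM] at h1
      have h2 := (hz m hmM).1 none
      have h3 := Ideal.add_mem _ h1 h2
      convert h3 using 1
      ring
    · rw [if_neg hmM, add_zero] at h1
      exact h1
  · intro m hm j
    have h1 := hsq m (hx j m (Finset.mem_union_left _ hm))
    have h3 := Ideal.add_mem _ h1 ((hz m hm).1 (some j))
    convert h3 using 1
    ring
  · intro m hm
    have hmS : m ∈ S := Finset.mem_union_left _ hm
    refine (hz m hm).2.trans (sup_le ?_ le_sup_right)
    rw [Ideal.span_le]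
    rintro _ ⟨o, rfl⟩
    have h1 : o.elim y x - algebraMap k A (o.elim (t m) fun _ => 0) - z m o ∈ m ^ 2 := by
      cases o with
      | none =>
        have h2 := hy m hmS
        rw [if_pos hm] at h2
        simp only [Option.elim_none]
        convert h2 using 1
        ring
      | some j =>
        simpa using hx j m hmS
    have h2 : z m o = (o.elim y x - algebraMap k A (o.elim (t m) fun _ => 0)) -
        (o.elim y x - algebraMap k A (o.elim (t m) fun _ => 0) - z m o) := by ring
    show z m o ∈ _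
    rw [h2]
    exact Ideal.sub_mem _ (Ideal.mem_sup_left (Ideal.subset_span ⟨o, rfl⟩))
      (Ideal.mem_sup_right h1)

end Pool.Agent.Lib.MP_b197b4_ntX
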