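import Mathlib

/-!
# Forms in the parameters of a regular local ring
-/

set_option autoImplicit false

namespace Pool.Agent.Lib.MP_b197b4_ntX

open IsLocalRing

/-- The maximal ideal is not the radical of an ideal with fewer generators than the dimension. -/
theorem not_primary {O ι : Type*} [CommRing O] [IsLocalRing O] [IsNoetherianRing O] [Fintype ι]
    (w : ι → O) (hw : ∀ i, w i ∈ maximalIdeal O) {d : ℕ} (hdim : ringKrullDim O = d)
    (hd : Fintype.card ι < d) (n : ℕ) : ¬ maximalIdeal O ^ n ≤ Ideal.span (Set.range w) := by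
  classical
  intro h
  have hht : (maximalIdeal O).height = d := by
    have h1 := maximalIdeal_height_eq_ringKrullDim (R := O)
    rw [hdim] at h1
    exact_mod_cast h1
  have hI : Ideal.span (Set.range w) ≤ maximalIdeal O := by
    rw [Ideal.span_le]
    rintro _ ⟨i, rfl⟩
    exact hw i
  have hmin : maximalIdeal O ∈ (Ideal.span (Set.range w)).minimalPrimes := by
    refine ⟨⟨inferInstance, hI⟩, ?_⟩
    rintro q ⟨hq, hIq⟩ _
    exact Ideal.IsPrime.le_of_pow_le (h.trans hIq)
  have h2 := Ideal.height_le_card_of_mem_minimalPrimes_span (Set.finite_range w) hmin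
  rw [hht] at h2
  have h3 : (Set.range w).ncard ≤ Fintype.card ι := by
    rw [← Nat.card_coe_set_eq, ← Nat.card_eq_fintype_card]
    exact Finite.card_range_le w
  have h4 : (d : ℕ∞) ≤ (Fintype.card ι : ℕ) := h2.trans (by exact_mod_cast h3)
  have h5 : d ≤ Fintype.card ι := by exact_mod_cast h4
  omega

/-- The value of a form at a vector modulo an ideal. -/
theorem form_mod {k O ι : Type*} [Field k] [CommRing O] [Algebra k O] [Fintype ι] (z : ι → O) (I : Ideal O)
    (c : ι → k) (y : O) (h : ∀ i, z i - algebraMap k O (c i) * y ∈ I) {n : ℕ} {G : MvPolynomial ι k}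
    (hG : G.IsHomogeneous n) :
    MvPolynomial.aeval z G - algebraMap k O (MvPolynomial.eval c G) * y ^ n ∈ I := by
  have h1 : MvPolynomial.aeval z G - MvPolynomial.aeval (fun i => algebraMap k O (c i) * y) G ∈ I := by
    rw [← Ideal.Quotient.eq]
    have h2 : ∀ (v : ι → O), Ideal.Quotient.mk I (MvPolynomial.aeval v G) =
        MvPolynomial.aeval (fun i => Ideal.Quotient.mk I (v i)) G := by
      intro v
      have := MvPolynomial.map_aeval (R := k) v (Ideal.Quotient.mk I) G
      rw [this, MvPolynomial.aeval_def]
      rfl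
    rw [h2, h2]
    congr 2
    funext i
    exact Ideal.Quotient.eq.2 (h i)
  have h3 : MvPolynomial.aeval (fun i => algebraMap k O (c i) * y) G =
      algebraMap k O (MvPolynomial.eval c G) * y ^ n := by
    have h4 : (fun i => algebraMap k O (c i) * y) = fun i => y * algebraMap k O (c i) := by
      funext i
      ring
    have h5 : MvPolynomial.aeval (fun i => algebraMap k O (c i)) G = algebraMap k O (MvPolynomial.eval c G) := by
      have := MvPolynomial.aeval_algebraMap_apply O c G
      rw [MvPolynomial.aeval_eq_eval] at this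
      exact this
    rw [h4, ← h5, mul_comm]
    rw [MvPolynomial.aeval_def, MvPolynomial.aeval_def, MvPolynomial.eval₂_eq', MvPolynomial.eval₂_eq',
      Finset.mul_sum]
    refine Finset.sum_congr rfl fun a ha => ?_
    have h6 : ∑ i, a i = n := by
      have h7 := hG (MvPolynomial.mem_support_iff.1 ha)
      rw [← h7, Finsupp.weight_apply, Finsupp.sum_fintype _ _ (by simp)]
      simp
    have h8 : ∏ i, (y * algebraMap k O (c i)) ^ a i = y ^ n * ∏ i, algebraMap k O (c i) ^ a i := by
      rw [← h6, ← Finset.prod_pow_eq_pow_sum, ← Finset.prod_mul_distrib]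
      exact Finset.prod_congr rfl fun i _ => mul_pow _ _ _
    rw [h8]
    ring
  rw [h3] at h1
  exact h1

/-- A non-zero form of degree `n` in the parameters of a regular local ring is not in the power `n + 1` of
the maximal ideal. -/
theorem form_lemma {k O ι : Type*} [Field k] [Infinite k] [CommRing O] [IsLocalRing O] [IsNoetherianRing O]
    [Algebra k O] [Fintype ι] (z : ι → O) (hz : Ideal.span (Set.range z) = maximalIdeal O)
    (hdim : ringKrullDim O = (Fintype.card ι : ℕ)) {n : ℕ} {G : MvPolynomial ι k} (hG : G.IsHomogeneous n)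
    (hG0 : G ≠ 0) : MvPolynomial.aeval z G ∉ maximalIdeal O ^ (n + 1) := by
  classical
  intro hmem
  have hc : ∃ c : ι → k, MvPolynomial.eval c G ≠ 0 := by
    by_contra h
    push Not at h
    exact hG0 (MvPolynomial.funext fun c => by rw [h c, map_zero])
  obtain ⟨c, hc⟩ := hc
  by_cases hc0 : ∃ i, c i ≠ 0
  · obtain ⟨i0, hi0⟩ := hc0
    set y : O := algebraMap k O (c i0)⁻¹ * z i0 with hy
    set w : {i // i ≠ i0} → O := fun i => z i.1 - algebraMap k O (c i.1) * y with hw
    have hzm : ∀ i, z i ∈ maximalIdeal O := fun i => by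
      rw [← hz]
      exact Ideal.subset_span ⟨i, rfl⟩
    have hym : y ∈ maximalIdeal O := Ideal.mul_mem_left _ _ (hzm i0)
    set I := Ideal.span (Set.range w) with hI
    have hwm : ∀ i, w i ∈ maximalIdeal O := fun i =>
      Ideal.sub_mem _ (hzm _) (Ideal.mul_mem_left _ _ hym)
    have hmod : ∀ i, z i - algebraMap k O (c i) * y ∈ I := by
      intro i
      by_cases hi : i = i0
      · have h1 : z i - algebraMap k O (c i) * y = 0 := by
          rw [hi, hy, ← mul_assoc, ← map_mul, mul_inv_cancel₀ hi0, map_one, one_mul, sub_self]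
        rw [h1]
        exact I.zero_mem
      · exact Ideal.subset_span ⟨⟨i, hi⟩, rfl⟩
    have hmax : maximalIdeal O ≤ I ⊔ Ideal.span {y} := by
      rw [← hz, Ideal.span_le]
      rintro _ ⟨i, rfl⟩
      have h1 : z i = (z i - algebraMap k O (c i) * y) + algebraMap k O (c i) * y := by ring
      rw [h1]
      exact Ideal.add_mem _ (Ideal.mem_sup_left (hmod i))
        (Ideal.mem_sup_right (Ideal.mul_mem_left _ _ (Ideal.mem_span_singleton_self y)))
    have hpow : ∀ m : ℕ, maximalIdeal O ^ m ≤ I ⊔ Ideal.span {y ^ m} := by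
      intro m
      induction m with
      | zero => simp
      | succ m ih =>
        rw [pow_succ]
        refine (Ideal.mul_mono ih hmax).trans ?_
        rw [Ideal.mul_le]
        intro r hr s hs
        obtain ⟨r1, hr1, r2, hr2, rfl⟩ := Submodule.mem_sup.1 hr
        obtain ⟨s1, hs1, s2, hs2, rfl⟩ := Submodule.mem_sup.1 hs
        obtain ⟨a, rfl⟩ := Ideal.mem_span_singleton'.1 hr2
        obtain ⟨b, rfl⟩ := Ideal.mem_span_singleton'.1 hs2
        have h1 : (r1 + a * y ^ m) * (s1 + b * y) = (r1 * (s1 + b * y) + a * y ^ m * s1) +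
          (a * b) * y ^ (m + 1) := by ring
        rw [h1]
        exact Ideal.add_mem _ (Ideal.mem_sup_left (I.add_mem (I.mul_mem_right _ hr1) (I.mul_mem_left _ hs1)))
          (Ideal.mem_sup_right (Ideal.mul_mem_left _ _ (Ideal.mem_span_singleton_self _)))
    have h2 := form_mod z I c y hmod hG
    have h3 : y ^ n ∈ I := by
      obtain ⟨a1, ha1, a2, ha2, ha⟩ := Submodule.mem_sup.1 (hpow (n + 1) hmem)
      obtain ⟨b, rfl⟩ := Ideal.mem_span_singleton'.1 ha2
      have h4 : (algebraMap k O (MvPolynomial.eval c G) - b * y) * y ^ n ∈ I := by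
        have h5 : (algebraMap k O (MvPolynomial.eval c G) - b * y) * y ^ n =
          a1 - (MvPolynomial.aeval z G - algebraMap k O (MvPolynomial.eval c G) * y ^ n) := by
          rw [← ha]
          ring
        rw [h5]
        exact I.sub_mem ha1 h2
      have h6 : IsUnit (algebraMap k O (MvPolynomial.eval c G) - b * y) := by
        by_contra hnu
        have h7 : algebraMap k O (MvPolynomial.eval c G) ∈ maximalIdeal O := by
          have h8 := Ideal.add_mem _ ((mem_maximalIdeal _).2 hnu) (Ideal.mul_mem_left _ b hym)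
          rwa [sub_add_cancel] at h8
        exact (mem_maximalIdeal _).1 h7 ((IsUnit.mk0 _ hc).map (algebraMap k O))
      exact (Ideal.unit_mul_mem_iff_mem I h6).1 h4
    refine not_primary w hwm hdim ?_ n ((hpow n).trans ?_)
    · have : Fintype.card {i // i ≠ i0} = Fintype.card ι - 1 := by
        rw [Fintype.card_subtype_compl, Fintype.card_subtype_eq]
      have h0 : 0 < Fintype.card ι := Fintype.card_pos_iff.2 ⟨i0⟩
      omega
    · refine sup_le le_rfl ?_
      rw [Ideal.span_singleton_le_iff_mem]
      exact h3
  · -- all coordinates vanish: `G` is a constant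
    push Not at hc0
    have hc' : c = 0 := funext hc0
    have hn : n = 0 := by
      by_contra hn
      apply hc
      rw [hc']
      have h1 : MvPolynomial.eval (0 : ι → k) G = MvPolynomial.constantCoeff G := by
        rw [MvPolynomial.eval_zero]
      rw [h1, MvPolynomial.constantCoeff_eq]
      by_contra h2
      have h3 := hG h2
      simp at h3
      exact hn h3.symm
    subst hn
    rw [zero_add, pow_one] at hmem
    have h1 : G = MvPolynomial.C (MvPolynomial.constantCoeff G) := by
      have := (MvPolynomial.totalDegree_eq_zero_iff_eq_C (p := G)).1 (Nat.le_zero.1 hG.totalDegree_le)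
      rw [this]
      simp
    rw [h1, MvPolynomial.algHom_C] at hmem
    have h2 : MvPolynomial.constantCoeff G ≠ 0 := by
      intro h3
      apply hG0
      rw [h1, h3, map_zero]
    exact (mem_maximalIdeal _).1 hmem ((IsUnit.mk0 _ h2).map (algebraMap k O))

end Pool.Agent.Lib.MP_b197b4_ntX
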