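import Pool.Agent.Lib.MP_b197b4_ntX.X0

/-!
# Maps from a finitely generated algebra to power series
-/

set_option autoImplicit false

namespace Pool.Agent.Lib.MP_b197b4_ntX

open IsLocalRing

/-- A map defined modulo all powers of an ideal. -/
theorem exists_lift {A B R : Type*} [CommRing A] [CommRing B] [CommRing R] (M : Ideal A) (ψ : B →+* A)
    (φ : B →+* PowerSeries R) (h1 : ∀ (n : ℕ) (a : A), ∃ p : B, a - ψ p ∈ M ^ n)
    (h2 : ∀ (n : ℕ) (p : B), ψ p ∈ M ^ n → ∀ i < n, PowerSeries.coeff i (φ p) = 0) :
    ∃ ρ : A →+* PowerSeries R, ∀ p, ρ (ψ p) = φ p := by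
  choose P hP using h1
  have key0 : ∀ (a : A) (n m : ℕ) (p q : B), a - ψ p ∈ M ^ n → a - ψ q ∈ M ^ m → ∀ i, i < n → i < m →
      PowerSeries.coeff i (φ p) = PowerSeries.coeff i (φ q) := by
    intro a n m p q hp hq i hin him
    have h3 : ψ (p - q) ∈ M ^ (i + 1) := by
      have h4 : ψ (p - q) = (a - ψ q) - (a - ψ p) := by rw [map_sub]; ring
      rw [h4]
      exact Ideal.sub_mem _ (Ideal.pow_le_pow_right him hq) (Ideal.pow_le_pow_right hin hp)
    have h5 := h2 (i + 1) (p - q) h3 i (Nat.lt_succ_self i)
    rw [map_sub, map_sub, sub_eq_zero] at h5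
    exact h5
  set r : A → PowerSeries R := fun a => PowerSeries.mk fun i => PowerSeries.coeff i (φ (P (i + 1) a)) with hr
  have key : ∀ (a : A) (n : ℕ) (p : B), a - ψ p ∈ M ^ n → ∀ i < n,
      PowerSeries.coeff i (r a) = PowerSeries.coeff i (φ p) := by
    intro a n p hp i hi
    rw [hr]
    simp only [PowerSeries.coeff_mk]
    exact key0 a (i + 1) n _ p (hP (i + 1) a) hp i (Nat.lt_succ_self i) hi
  have hψ : ∀ p, r (ψ p) = φ p := by
    intro p
    ext i
    exact key (ψ p) (i + 1) p (by rw [sub_self]; exact Ideal.zero_mem _) i (Nat.lt_succ_self i)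
  refine ⟨{ toFun := r, map_one' := ?_, map_mul' := ?_, map_zero' := ?_, map_add' := ?_ }, hψ⟩
  · rw [← map_one ψ, hψ, map_one]
  · intro a b
    ext i
    have h3 : a * b - ψ (P (i + 1) a * P (i + 1) b) ∈ M ^ (i + 1) := by
      have h4 : a * b - ψ (P (i + 1) a * P (i + 1) b) =
          a * (b - ψ (P (i + 1) b)) + (a - ψ (P (i + 1) a)) * ψ (P (i + 1) b) := by
        rw [map_mul]
        ring
      rw [h4]
      exact Ideal.add_mem _ (Ideal.mul_mem_left _ _ (hP _ _)) (Ideal.mul_mem_right _ _ (hP _ _))
    rw [key _ _ _ h3 i (Nat.lt_succ_self i), map_mul, PowerSeries.coeff_mul, PowerSeries.coeff_mul]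
    refine Finset.sum_congr rfl fun x hx => ?_
    have hx' : x.1 + x.2 = i := by simpa using hx
    rw [key a (i + 1) _ (hP _ _) x.1 (by omega), key b (i + 1) _ (hP _ _) x.2 (by omega)]
  · rw [← map_zero ψ, hψ, map_zero]
  · intro a b
    ext i
    have h3 : a + b - ψ (P (i + 1) a + P (i + 1) b) ∈ M ^ (i + 1) := by
      have h4 : a + b - ψ (P (i + 1) a + P (i + 1) b) =
          (a - ψ (P (i + 1) a)) + (b - ψ (P (i + 1) b)) := by
        rw [map_add]
        ring
      rw [h4]
      exact Ideal.add_mem _ (hP _ _) (hP _ _)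
    rw [key _ _ _ h3 i (Nat.lt_succ_self i), map_add, map_add, map_add,
      key a (i + 1) _ (hP _ _) i (Nat.lt_succ_self i), key b (i + 1) _ (hP _ _) i (Nat.lt_succ_self i)]

/-- The values of forms are in the powers of an ideal. -/
theorem aeval_mem_pow {k O ι : Type*} [CommRing k] [CommRing O] [Algebra k O] (z : ι → O) (I : Ideal O)
    (hz : ∀ i, z i ∈ I) {n : ℕ} {G : MvPolynomial ι k} (hG : G.IsHomogeneous n) :
    MvPolynomial.aeval z G ∈ I ^ n := by
  classical
  rw [MvPolynomial.aeval_def, MvPolynomial.eval₂_eq]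
  refine Ideal.sum_mem _ fun a ha => Ideal.mul_mem_left _ _ ?_
  have h6 : ∑ i ∈ a.support, a i = n := by
    have h7 := hG (MvPolynomial.mem_support_iff.1 ha)
    rw [← h7, Finsupp.weight_apply, Finsupp.sum]
    simp
  rw [← h6, ← Finset.prod_pow_eq_pow_sum]
  exact Ideal.prod_mem_prod fun i _ => Ideal.pow_mem_pow (hz i) _

/-- Approximation by polynomials in the parameters. -/
theorem exists_approx {k A ι : Type*} [Field k] [CommRing A] [Algebra k A] (m : Ideal A)
    (z : ι → A) (hz : ∀ i, z i ∈ m) (hres : ∀ a : A, ∃ r : k, a - algebraMap k A r ∈ m)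
    (hgen : m ≤ Ideal.span (Set.range z) ⊔ m ^ 2) (n : ℕ) (a : A) :
    ∃ p : MvPolynomial ι k, a - MvPolynomial.aeval z p ∈ m ^ n := by
  set I : Ideal A := Ideal.span (Set.range z) with hI
  set IB : Ideal (MvPolynomial ι k) := Ideal.span (Set.range MvPolynomial.X) with hIB
  have hIm : I ≤ m := by
    rw [hI, Ideal.span_le]
    rintro _ ⟨i, rfl⟩
    exact hz i
  have hmap : IB.map (MvPolynomial.aeval z : MvPolynomial ι k →ₐ[k] A).toRingHom = I := by
    rw [hIB, Ideal.map_span, ← Set.range_comp]
    congr 1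
    ext a
    simp
  have hpow : ∀ n : ℕ, m ^ n ≤ I ^ n ⊔ m ^ (n + 1) := by
    intro n
    induction n with
    | zero => simp
    | succ n ih =>
      rw [pow_succ m n]
      refine (Ideal.mul_mono ih hgen).trans ?_
      rw [Ideal.sup_mul, Ideal.mul_sup, Ideal.mul_sup]
      refine sup_le (sup_le ?_ ?_) (sup_le ?_ ?_)
      · rw [← pow_succ]
        exact le_sup_left
      · refine le_trans ?_ le_sup_right
        rw [show n + 1 + 1 = n + 2 by ring, pow_add]
        exact Ideal.mul_mono (Ideal.pow_right_mono hIm n) le_rfl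
      · refine le_trans ?_ le_sup_right
        rw [show n + 1 + 1 = (n + 1) + 1 by ring, pow_succ m (n + 1)]
        exact Ideal.mul_mono le_rfl hIm
      · refine le_trans ?_ le_sup_right
        rw [← pow_add]
        exact Ideal.pow_le_pow_right (by omega)
  have hstep : ∀ (n : ℕ) (b : A), b ∈ m ^ n → ∃ p : MvPolynomial ι k,
      b - MvPolynomial.aeval z p ∈ m ^ (n + 1) := by
    intro n b hb
    obtain ⟨b1, hb1, b2, hb2, rfl⟩ := Submodule.mem_sup.1 (hpow n hb)
    have h3 : b1 ∈ (IB ^ n).map (MvPolynomial.aeval z : MvPolynomial ι k →ₐ[k] A).toRingHom := by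
      rw [Ideal.map_pow, hmap]
      exact hb1
    have h4 : ∀ p ∈ IB ^ n, MvPolynomial.aeval z p ∈ m ^ n := by
      intro p hp
      have h5 := Ideal.mem_map_of_mem (MvPolynomial.aeval z : MvPolynomial ι k →ₐ[k] A).toRingHom hp
      rw [Ideal.map_pow, hmap] at h5
      exact Ideal.pow_right_mono hIm n h5
    have h6 : ∃ p ∈ IB ^ n, b1 - MvPolynomial.aeval z p ∈ m ^ (n + 1) := by
      rw [Ideal.map] at h3
      refine Submodule.span_induction ?_ ?_ ?_ ?_ h3
      · rintro _ ⟨p, hp, rfl⟩
        refine ⟨p, hp, ?_⟩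
        have : (MvPolynomial.aeval z : MvPolynomial ι k →ₐ[k] A).toRingHom p - MvPolynomial.aeval z p = 0 :=
          sub_self _
        rw [this]
        exact Ideal.zero_mem _
      · exact ⟨0, Ideal.zero_mem _, by simp⟩
      · rintro u w _ _ ⟨p, hp, hp'⟩ ⟨q, hq, hq'⟩
        refine ⟨p + q, Ideal.add_mem _ hp hq, ?_⟩
        have : u + w - MvPolynomial.aeval z (p + q) =
          (u - MvPolynomial.aeval z p) + (w - MvPolynomial.aeval z q) := by
          rw [map_add]; ring
        rw [this]
        exact Ideal.add_mem _ hp' hq'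
      · rintro c u _ ⟨p, hp, hp'⟩
        obtain ⟨r, hr⟩ := hres c
        refine ⟨MvPolynomial.C r * p, Ideal.mul_mem_left _ _ hp, ?_⟩
        have h7 : c • u - MvPolynomial.aeval z (MvPolynomial.C r * p) =
            c * (u - MvPolynomial.aeval z p) + (c - algebraMap k A r) * MvPolynomial.aeval z p := by
          rw [map_mul, MvPolynomial.aeval_C, smul_eq_mul]; ring
        rw [h7]
        refine Ideal.add_mem _ (Ideal.mul_mem_left _ _ hp') ?_
        rw [pow_succ']
        exact Ideal.mul_mem_mul hr (h4 p hp)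
    obtain ⟨p, _, hp⟩ := h6
    refine ⟨p, ?_⟩
    have : b1 + b2 - MvPolynomial.aeval z p = (b1 - MvPolynomial.aeval z p) + b2 := by ring
    rw [this]
    exact Ideal.add_mem _ hp hb2
  induction n with
  | zero => exact ⟨0, by simp⟩
  | succ n ih =>
    obtain ⟨p, hp⟩ := ih
    obtain ⟨q, hq⟩ := hstep n _ hp
    refine ⟨p + q, ?_⟩
    have : a - MvPolynomial.aeval z (p + q) = a - MvPolynomial.aeval z p - MvPolynomial.aeval z q := by
      rw [map_add]; ring
    rw [this]
    exact hq

/-- The maximal ideal of the local ring is generated by the parameters. -/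
theorem span_local {A ι : Type*} [CommRing A] [IsNoetherianRing A] (m : Ideal A) [m.IsPrime] (z : ι → A)
    (hz : ∀ i, z i ∈ m) (hgen : m ≤ Ideal.span (Set.range z) ⊔ m ^ 2) :
    Ideal.span (Set.range fun i => algebraMap A (Localization.AtPrime m) (z i)) =
      maximalIdeal (Localization.AtPrime m) := by
  set O := Localization.AtPrime m
  have hmap : m.map (algebraMap A O) = maximalIdeal O := Localization.AtPrime.map_eq_maximalIdeal
  have h1 : Ideal.span (Set.range fun i => algebraMap A O (z i)) =
      (Ideal.span (Set.range z)).map (algebraMap A O) := by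
    rw [Ideal.map_span, ← Set.range_comp]
    rfl
  rw [h1]
  apply le_antisymm
  · rw [← hmap]
    apply Ideal.map_mono
    rw [Ideal.span_le]
    rintro _ ⟨i, rfl⟩
    exact hz i
  · have h2 : maximalIdeal O ≤ (Ideal.span (Set.range z)).map (algebraMap A O) ⊔
        maximalIdeal O • maximalIdeal O := by
      conv_lhs => rw [← hmap]
      refine (Ideal.map_mono hgen).trans ?_
      rw [Ideal.map_sup, Ideal.map_pow, hmap, pow_two]
      rfl
    refine Submodule.le_of_le_smul_of_le_jacobson_bot (IsNoetherian.noetherian _) ?_ h2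
    exact IsLocalRing.maximalIdeal_le_jacobson _

/-- The components of low degree of a polynomial with values in a power of the maximal ideal vanish. -/
theorem hc_zero {k A ι : Type*} [Field k] [Infinite k] [CommRing A] [IsNoetherianRing A] [Algebra k A]
    [Fintype ι] (m : Ideal A) [m.IsPrime] (z : ι → A) (hz : ∀ i, z i ∈ m)
    (hgen : m ≤ Ideal.span (Set.range z) ⊔ m ^ 2)
    (hdim : ringKrullDim (Localization.AtPrime m) = (Fintype.card ι : ℕ)) {n : ℕ} {p : MvPolynomial ι k}
    (hp : MvPolynomial.aeval z p ∈ m ^ n) : ∀ l < n, MvPolynomial.homogeneousComponent l p = 0 := by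
  intro l
  induction l using Nat.strong_induction_on with
  | _ l ih =>
    intro hl
    by_contra hne
    have h1 := form_lemma (k := k) (fun i => algebraMap A (Localization.AtPrime m) (z i))
      (span_local m z hz hgen) hdim (MvPolynomial.homogeneousComponent_isHomogeneous l p) hne
    apply h1
    have h2 : MvPolynomial.aeval z (MvPolynomial.homogeneousComponent l p) ∈ m ^ (l + 1) := by
      have h3 : p = ∑ i ∈ Finset.range (p.totalDegree + 1), MvPolynomial.homogeneousComponent i p :=
        (MvPolynomial.sum_homogeneousComponent p).symm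
      have h4 : MvPolynomial.aeval z p =
          ∑ i ∈ Finset.range (p.totalDegree + 1), MvPolynomial.aeval z (MvPolynomial.homogeneousComponent i p) := by
        conv_lhs => rw [h3, map_sum]
      have hle : l ∈ Finset.range (p.totalDegree + 1) := by
        rw [Finset.mem_range]
        by_contra h5
        exact hne (MvPolynomial.homogeneousComponent_eq_zero _ _ (by omega))
      rw [← Finset.add_sum_erase _ _ hle] at h4
      have h5 : MvPolynomial.aeval z (MvPolynomial.homogeneousComponent l p) = MvPolynomial.aeval z p -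
          ∑ i ∈ (Finset.range (p.totalDegree + 1)).erase l,
            MvPolynomial.aeval z (MvPolynomial.homogeneousComponent i p) := by
        rw [h4]; ring
      rw [h5]
      refine Ideal.sub_mem _ (Ideal.pow_le_pow_right hl hp) (Ideal.sum_mem _ fun i hi => ?_)
      rcases lt_trichotomy i l with h6 | h6 | h6
      · rw [ih i h6 (by omega), map_zero]
        exact Ideal.zero_mem _
      · exact absurd h6 (Finset.ne_of_mem_erase hi)
      · exact Ideal.pow_le_pow_right h6
          (aeval_mem_pow z m hz (MvPolynomial.homogeneousComponent_isHomogeneous i p))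
    have h3 : MvPolynomial.aeval (fun i => algebraMap A (Localization.AtPrime m) (z i))
        (MvPolynomial.homogeneousComponent l p) =
        algebraMap A (Localization.AtPrime m) (MvPolynomial.aeval z (MvPolynomial.homogeneousComponent l p)) :=
      MvPolynomial.aeval_algebraMap_apply _ _ _
    rw [h3, ← Localization.AtPrime.map_eq_maximalIdeal, ← Ideal.map_pow]
    exact Ideal.mem_map_of_mem _ h2

/-- The map to power series given by arbitrary values without constant term of the parameters. -/
theorem exists_rho {k A R ι : Type*} [Field k] [Infinite k] [CommRing A] [IsNoetherianRing A] [Algebra k A]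
    [CommRing R] [Algebra k R] [Fintype ι] (m : Ideal A) [m.IsPrime] (z : ι → A) (hz : ∀ i, z i ∈ m)
    (hres : ∀ a : A, ∃ r : k, a - algebraMap k A r ∈ m) (hgen : m ≤ Ideal.span (Set.range z) ⊔ m ^ 2)
    (hdim : ringKrullDim (Localization.AtPrime m) = (Fintype.card ι : ℕ)) (δ : ι → PowerSeries R)
    (hδ : ∀ i, PowerSeries.constantCoeff (δ i) = 0) :
    ∃ ρ : A →ₐ[k] PowerSeries R, ∀ i, ρ (z i) = δ i := by
  obtain ⟨ρ, hρ⟩ := exists_lift m (MvPolynomial.aeval z : MvPolynomial ι k →ₐ[k] A).toRingHom
    (MvPolynomial.aeval δ : MvPolynomial ι k →ₐ[k] PowerSeries R).toRingHom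
    (fun n a => exists_approx m z hz hres hgen n a) (by
      intro n p hp i hi
      have h1 := hc_zero m z hz hgen hdim hp
      have h2 : MvPolynomial.aeval δ p =
          ∑ l ∈ Finset.range (p.totalDegree + 1), MvPolynomial.aeval δ (MvPolynomial.homogeneousComponent l p) := by
        conv_lhs => rw [← MvPolynomial.sum_homogeneousComponent p, map_sum]
      show PowerSeries.coeff i (MvPolynomial.aeval δ p) = 0
      rw [h2, map_sum]
      refine Finset.sum_eq_zero fun l _ => ?_
      by_cases hl : l < n
      · rw [h1 l hl, map_zero, map_zero]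
      · have h3 := aeval_mem_pow δ (Ideal.span {(PowerSeries.X : PowerSeries R)}) (fun i => by
          rw [Ideal.mem_span_singleton, PowerSeries.X_dvd_iff]
          exact hδ i) (MvPolynomial.homogeneousComponent_isHomogeneous l p)
        rw [Ideal.span_singleton_pow, Ideal.mem_span_singleton, PowerSeries.X_pow_dvd_iff] at h3
        exact h3 i (by omega))
  refine ⟨{ ρ with commutes' := ?_ }, ?_⟩
  · intro r
    have h1 := hρ (MvPolynomial.C r)
    have h2 : (MvPolynomial.aeval z : MvPolynomial ι k →ₐ[k] A).toRingHom (MvPolynomial.C r) = algebraMap k A r :=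
      MvPolynomial.aeval_C z r
    have h3 : (MvPolynomial.aeval δ : MvPolynomial ι k →ₐ[k] PowerSeries R).toRingHom (MvPolynomial.C r) =
        algebraMap k (PowerSeries R) r := MvPolynomial.aeval_C δ r
    rw [h2, h3] at h1
    exact h1
  · intro i
    have h1 := hρ (MvPolynomial.X i)
    have h2 : (MvPolynomial.aeval z : MvPolynomial ι k →ₐ[k] A).toRingHom (MvPolynomial.X i) = z i :=
      MvPolynomial.aeval_X z i
    have h3 : (MvPolynomial.aeval δ : MvPolynomial ι k →ₐ[k] PowerSeries R).toRingHom (MvPolynomial.X i) =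
        δ i := MvPolynomial.aeval_X δ i
    rw [h2, h3] at h1
    exact h1

end Pool.Agent.Lib.MP_b197b4_ntX
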