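import Mathlib

/-!
# A primitive element over the ring of the coordinates
-/

set_option autoImplicit false

universe u

namespace Pool.Agent.Lib.MP_b197b4_ntX

open scoped nonZeroDivisors

/-- Nakayama for the differentials. -/
theorem omega_ann {S A : Type u} [CommRing S] [CommRing A] [IsDomain A] [Algebra S A]
    [Algebra.FiniteType S A] (m : Ideal A) (hm : m ≠ ⊤)
    (h : ∀ a : A, KaehlerDifferential.D S A a ∈ (m • ⊤ : Submodule A (Ω[A⁄S]))) :
    ∃ s : A, s ≠ 0 ∧ ∀ ω : Ω[A⁄S], s • ω = 0 := by
  have h1 : (⊤ : Submodule A (Ω[A⁄S])) ≤ m • ⊤ := by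
    conv_lhs => rw [← KaehlerDifferential.span_range_derivation]
    rw [Submodule.span_le]
    rintro _ ⟨a, rfl⟩
    exact h a
  obtain ⟨r, hr, hr2⟩ := Submodule.exists_sub_one_mem_and_smul_eq_zero_of_fg_of_le_smul m
    (⊤ : Submodule A (Ω[A⁄S])) Module.Finite.fg_top h1
  refine ⟨r, ?_, fun ω => hr2 ω trivial⟩
  rintro rfl
  apply hm
  rw [Ideal.eq_top_iff_one]
  have h2 := m.neg_mem hr
  rwa [zero_sub, neg_neg] at h2

/-- The extension of the fraction fields is unramified. -/
theorem unram_frac {S A F K : Type u} [CommRing S] [CommRing A] [IsDomain A] [Algebra S A]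
    [Field F] [Field K] [Algebra S F] [Algebra A K] [IsFractionRing A K] [Algebra F K] [Algebra S K]
    [IsScalarTower S F K] [IsScalarTower S A K] {s : A} (hs : s ≠ 0)
    (h : ∀ ω : Ω[A⁄S], s • ω = 0) : Algebra.FormallyUnramified F K := by
  have hsK : algebraMap A K s ≠ 0 := by
    intro h0
    exact hs (IsFractionRing.injective A K (by rw [h0, map_zero]))
  have h1 : ∀ a : A, KaehlerDifferential.D F K (algebraMap A K a) = 0 := by
    intro a
    have h2 := congrArg (KaehlerDifferential.map S F A K) (h (KaehlerDifferential.D S A a))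
    rw [map_smul, map_zero, KaehlerDifferential.map_D, ← IsScalarTower.algebraMap_smul K] at h2
    exact (smul_eq_zero.1 h2).resolve_left hsK
  have h3 : ∀ z : K, KaehlerDifferential.D F K z = 0 := by
    intro z
    obtain ⟨a, b, hb, rfl⟩ := IsFractionRing.div_surjective (A := A) z
    have hb0 : algebraMap A K b ≠ 0 := by
      intro h0
      exact (nonZeroDivisors.ne_zero hb) (IsFractionRing.injective A K (by rw [h0, map_zero]))
    have h4 : algebraMap A K a / algebraMap A K b * algebraMap A K b = algebraMap A K a :=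
      div_mul_cancel₀ _ hb0
    have h5 := congrArg (KaehlerDifferential.D F K) h4
    rw [Derivation.leibniz, h1, h1, smul_zero, zero_add] at h5
    exact (smul_eq_zero.1 h5).resolve_left hb0
  refine ⟨?_⟩
  have h6 : (⊤ : Submodule K (Ω[K⁄F])) = ⊥ := by
    rw [← KaehlerDifferential.span_range_derivation, Submodule.span_eq_bot]
    rintro _ ⟨z, rfl⟩
    exact h3 z
  exact (Submodule.subsingleton_iff K).1 (subsingleton_of_bot_eq_top h6.symm)

open Polynomial in
/-- Clearing of the denominators. -/
theorem clear_den {S A F K : Type u} [CommRing S] [IsDomain S] [CommRing A] [IsDomain A]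
    [Algebra S A] [Field F] [Field K] [Algebra S F] [IsFractionRing S F] [Algebra A K]
    [IsFractionRing A K] [Algebra F K] [Algebra S K] [IsScalarTower S F K] [IsScalarTower S A K]
    (θ a : A) (p : F[X]) (hp : aeval (algebraMap A K θ) p = algebraMap A K a) :
    ∃ (b : S) (q : S[X]), b ≠ 0 ∧ q.map (algebraMap S F) = C (algebraMap S F b) * p ∧
      algebraMap S A b * a = aeval θ q := by
  obtain ⟨b, hb, h⟩ := IsLocalization.integerNormalization_spec (nonZeroDivisors S) p
  have h1 : (IsLocalization.integerNormalization (nonZeroDivisors S) p).map (algebraMap S F) =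
      C (algebraMap S F b) * p := by
    rw [h]
    ext n
    rw [coeff_smul, coeff_C_mul, Algebra.smul_def]
  refine ⟨b, IsLocalization.integerNormalization (nonZeroDivisors S) p,
    nonZeroDivisors.ne_zero hb, h1, ?_⟩
  apply IsFractionRing.injective A K
  rw [← aeval_algebraMap_apply, ← aeval_map_algebraMap F, h1]
  have h2 : aeval (algebraMap A K θ) (C (algebraMap S F b) * p) =
      algebraMap F K (algebraMap S F b) * algebraMap A K a := by
    rw [map_mul, aeval_C, hp]
  rw [h2, map_mul, ← IsScalarTower.algebraMap_apply, ← IsScalarTower.algebraMap_apply]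

open Polynomial IntermediateField in
/-- The primitive element. -/
theorem exists_prim {S A F K : Type u} [CommRing S] [IsDomain S] [CommRing A] [IsDomain A]
    [Algebra S A] [Algebra.FiniteType S A] [Field F] [Field K] [Algebra S F] [IsFractionRing S F]
    [Algebra A K] [IsFractionRing A K] [Algebra F K] [Algebra S K] [IsScalarTower S F K]
    [IsScalarTower S A K] [Algebra.FormallyUnramified F K] :
    ∃ (θ : A) (Φ : S[X]) (b : S), b ≠ 0 ∧ Irreducible (Φ.map (algebraMap S F)) ∧
      aeval θ Φ = 0 ∧ ∀ a : A, ∃ (n : ℕ) (q : S[X]), algebraMap S A b ^ n * a = aeval θ q := by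
  have hE1 : Algebra.EssFiniteType A K := Algebra.EssFiniteType.of_isLocalization K (nonZeroDivisors A)
  have hE2 : Algebra.EssFiniteType S K := Algebra.EssFiniteType.comp S A K
  have hE3 : Algebra.EssFiniteType F K := Algebra.EssFiniteType.of_comp S F K
  have hsep : Algebra.IsSeparable F K := Algebra.FormallyUnramified.isSeparable F K
  have hfin : Module.Finite F K := Algebra.FormallyUnramified.finite_of_free F K
  have halgK : Algebra.IsAlgebraic F K := Algebra.IsAlgebraic.of_finite F K
  have halgS : Algebra.IsAlgebraic S K := IsFractionRing.comap_isAlgebraic_iff.2 halgK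
  have halg : Algebra.IsAlgebraic S A := ⟨fun a =>
    (isAlgebraic_algebraMap_iff (IsFractionRing.injective A K)).1
      (halgS.isAlgebraic (algebraMap A K a))⟩
  obtain ⟨α, hα⟩ := Field.exists_primitive_element F K
  obtain ⟨a, d, hd, rfl⟩ := IsFractionRing.div_surjective (A := A) α
  have hd0 : d ≠ 0 := nonZeroDivisors.ne_zero hd
  obtain ⟨θ, t, ht, e⟩ := Algebra.IsAlgebraic.exists_smul_eq_mul S a hd0
  have hdK : algebraMap A K d ≠ 0 := fun h0 =>
    hd0 (IsFractionRing.injective A K (by rw [h0, map_zero]))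
  have htF : algebraMap S F t ≠ 0 := fun h0 =>
    ht (IsFractionRing.injective S F (by rw [h0, map_zero]))
  have hθ1 : algebraMap F K (algebraMap S F t)⁻¹ * algebraMap A K θ =
      algebraMap A K a / algebraMap A K d := by
    have h1 := congrArg (algebraMap A K) e
    rw [Algebra.smul_def, map_mul, map_mul, ← IsScalarTower.algebraMap_apply S A K,
      IsScalarTower.algebraMap_apply S F K] at h1
    rw [map_inv₀]
    have h2 : algebraMap F K (algebraMap S F t) ≠ 0 := (_root_.map_ne_zero _).2 htF
    field_simp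
    rw [h1]
    ring
  have hθ : F⟮algebraMap A K θ⟯ = ⊤ := by
    rw [eq_top_iff, ← hα, adjoin_simple_le_iff, ← hθ1]
    exact mul_mem (IntermediateField.algebraMap_mem _ _) (mem_adjoin_simple_self F _)
  have hpoly : ∀ z : K, ∃ p : F[X], aeval (algebraMap A K θ) p = z := by
    intro z
    have h1 : z ∈ F⟮algebraMap A K θ⟯.toSubalgebra := by
      rw [hθ]
      trivial
    rw [adjoin_simple_toSubalgebra_of_isAlgebraic (halgK.isAlgebraic _),
      Algebra.adjoin_singleton_eq_range_aeval] at h1
    exact h1
  obtain ⟨b0, Φ, hb0, hΦ, hΦ0⟩ := clear_den (K := K) (S := S) θ 0 (minpoly F (algebraMap A K θ))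
    (by rw [minpoly.aeval, map_zero])
  have hcl : ∀ a : A, ∃ (b : S) (q : S[X]), b ≠ 0 ∧ algebraMap S A b * a = aeval θ q := by
    intro a
    obtain ⟨p, hp⟩ := hpoly (algebraMap A K a)
    obtain ⟨b, q, hb, -, hq⟩ := clear_den (K := K) (S := S) θ a p hp
    exact ⟨b, q, hb, hq⟩
  choose β Q hβ hQ using hcl
  obtain ⟨G, hG⟩ := (Algebra.FiniteType.out : (⊤ : Subalgebra S A).FG)
  refine ⟨θ, Φ, ∏ g ∈ G, β g, Finset.prod_ne_zero_iff.2 fun g _ => hβ g, ?_, ?_, ?_⟩
  · rw [hΦ]
    have h1 : Irreducible (minpoly F (algebraMap A K θ)) :=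
      minpoly.irreducible (Algebra.IsIntegral.isIntegral _)
    have h2 : IsUnit (C (algebraMap S F b0)) := isUnit_C.2 (IsUnit.mk0 _ fun h0 =>
      hb0 (IsFractionRing.injective S F (by rw [h0, map_zero])))
    exact (irreducible_isUnit_mul h2).2 h1
  · rw [← hΦ0, mul_zero]
  · intro a
    have ha : a ∈ Algebra.adjoin S (G : Set A) := by
      rw [hG]
      trivial
    induction ha using Algebra.adjoin_induction with
    | mem g hg =>
      obtain ⟨r, hr⟩ := Finset.dvd_prod_of_mem β hg
      refine ⟨1, C r * Q g, ?_⟩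
      rw [pow_one, hr, map_mul, map_mul, aeval_C, ← hQ]
      ring
    | algebraMap s => exact ⟨0, C s, by rw [pow_zero, one_mul, aeval_C]⟩
    | add a a' _ _ h1 h2 =>
      obtain ⟨n, q, h1⟩ := h1
      obtain ⟨n', q', h2⟩ := h2
      refine ⟨n + n', C ((∏ g ∈ G, β g) ^ n') * q + C ((∏ g ∈ G, β g) ^ n) * q', ?_⟩
      rw [map_add, map_mul, map_mul, aeval_C, aeval_C, ← h1, ← h2, map_pow, map_pow]
      ring
    | mul a a' _ _ h1 h2 =>
      obtain ⟨n, q, h1⟩ := h1
      obtain ⟨n', q', h2⟩ := h2
      refine ⟨n + n', q * q', ?_⟩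
      rw [map_mul, ← h1, ← h2]
      ring

/-- Let `x` be elements of the finitely generated domain `A` over the algebraically closed field `k`, such that the
elements `x i - c i` generate a maximal ideal `m` with residue field `k` up to `m ^ 2`, and which are algebraically
independent. Then `A`, localised at a non-zero polynomial `b` in the `x i`, is generated over the polynomials in the `x i`
by one element `θ`, the root of an irreducible polynomial. -/
theorem exists_theta {k A : Type u} {ι : Type} [Field k] [IsAlgClosed k] [CommRing A] [IsDomain A] [Algebra k A]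
    [Algebra.FiniteType k A] [Fintype ι] (x : ι → A) (c : ι → k) (m : Ideal A) [m.IsMaximal]
    (hres : ∀ a : A, ∃ r : k, a - algebraMap k A r ∈ m)
    (hx : m ≤ Ideal.span (Set.range fun i => x i - algebraMap k A (c i)) ⊔ m ^ 2)
    (hx' : ∀ i, x i - algebraMap k A (c i) ∈ m)
    (hinj : Function.Injective (MvPolynomial.aeval x : MvPolynomial ι k →ₐ[k] A)) :
    ∃ (θ : A) (Φ : Polynomial (MvPolynomial ι k)) (b : MvPolynomial ι k), b ≠ 0 ∧
      Irreducible (Φ.map (algebraMap (MvPolynomial ι k) (FractionRing (MvPolynomial ι k)))) ∧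
      Polynomial.eval₂ (MvPolynomial.aeval x : MvPolynomial ι k →ₐ[k] A).toRingHom θ Φ = 0 ∧
      ∀ a : A, ∃ (n : ℕ) (q : Polynomial (MvPolynomial ι k)), MvPolynomial.aeval x b ^ n * a =
        Polynomial.eval₂ (MvPolynomial.aeval x : MvPolynomial ι k →ₐ[k] A).toRingHom θ q := by
  let _ : Algebra (MvPolynomial ι k) A :=
    (MvPolynomial.aeval x : MvPolynomial ι k →ₐ[k] A).toRingHom.toAlgebra
  have hmap : ∀ s : MvPolynomial ι k, algebraMap (MvPolynomial ι k) A s = MvPolynomial.aeval x s :=
    fun s => rfl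
  have htow : IsScalarTower k (MvPolynomial ι k) A := IsScalarTower.of_algebraMap_eq fun r => by
    rw [hmap, MvPolynomial.algebraMap_eq, MvPolynomial.aeval_C]
  have hft : Algebra.FiniteType (MvPolynomial ι k) A :=
    Algebra.FiniteType.of_restrictScalars_finiteType k (MvPolynomial ι k) A
  have hfs : FaithfulSMul (MvPolynomial ι k) A := (faithfulSMul_iff_algebraMap_injective _ _).2 hinj
  have hk : ∀ r : k, KaehlerDifferential.D (MvPolynomial ι k) A (algebraMap k A r) = 0 := by
    intro r
    rw [IsScalarTower.algebraMap_apply k (MvPolynomial ι k) A]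
    exact Derivation.map_algebraMap _ _
  have hxi : ∀ i, KaehlerDifferential.D (MvPolynomial ι k) A (x i - algebraMap k A (c i)) = 0 := by
    intro i
    have h1 : x i = algebraMap (MvPolynomial ι k) A (MvPolynomial.X i) := by
      rw [hmap, MvPolynomial.aeval_X]
    rw [map_sub, hk, sub_zero, h1]
    exact Derivation.map_algebraMap _ _
  have hmem : ∀ y ∈ m, ∀ ω : Ω[A⁄MvPolynomial ι k],
      y • ω ∈ (m • ⊤ : Submodule A (Ω[A⁄MvPolynomial ι k])) := fun y hy ω =>
    Submodule.smul_mem_smul hy trivial
  have hm1 : ∀ y ∈ Ideal.span (Set.range fun i => x i - algebraMap k A (c i)),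
      y ∈ m ∧ KaehlerDifferential.D (MvPolynomial ι k) A y ∈
        (m • ⊤ : Submodule A (Ω[A⁄MvPolynomial ι k])) := by
    intro y hy
    induction hy using Submodule.span_induction with
    | mem y hy =>
      obtain ⟨i, rfl⟩ := hy
      refine ⟨hx' i, ?_⟩
      change KaehlerDifferential.D (MvPolynomial ι k) A (x i - algebraMap k A (c i)) ∈ _
      rw [hxi]
      exact zero_mem _
    | zero =>
      refine ⟨m.zero_mem, ?_⟩
      rw [map_zero]
      exact zero_mem _
    | add y z _ _ h1 h2 =>
      refine ⟨m.add_mem h1.1 h2.1, ?_⟩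
      rw [map_add]
      exact add_mem h1.2 h2.2
    | smul r y _ h1 =>
      refine ⟨m.mul_mem_left r h1.1, ?_⟩
      rw [smul_eq_mul, Derivation.leibniz]
      exact add_mem (Submodule.smul_mem _ _ h1.2) (hmem y h1.1 _)
  have hm2 : ∀ y ∈ m ^ 2, KaehlerDifferential.D (MvPolynomial ι k) A y ∈
        (m • ⊤ : Submodule A (Ω[A⁄MvPolynomial ι k])) := by
    intro y hy
    rw [pow_two] at hy
    induction hy using Submodule.mul_induction_on' with
    | mem_mul_mem y hy z hz =>
      rw [Derivation.leibniz]
      exact add_mem (hmem y hy _) (hmem z hz _)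
    | add y _ z _ h1 h2 =>
      rw [map_add]
      exact add_mem h1 h2
  have hD : ∀ a : A, KaehlerDifferential.D (MvPolynomial ι k) A a ∈
      (m • ⊤ : Submodule A (Ω[A⁄MvPolynomial ι k])) := by
    intro a
    obtain ⟨r, hr⟩ := hres a
    obtain ⟨y, hy, z, hz, hyz⟩ := Submodule.mem_sup.1 (hx hr)
    have h1 : a = y + z + algebraMap k A r := by
      rw [hyz]
      ring
    rw [h1, map_add, map_add, hk, add_zero]
    exact add_mem (hm1 y hy).2 (hm2 z hz)
  obtain ⟨s, hs, hs'⟩ := omega_ann m (Ideal.IsMaximal.ne_top inferInstance) hD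
  have hfs' : FaithfulSMul (MvPolynomial ι k) (FractionRing A) :=
    (faithfulSMul_iff_algebraMap_injective _ _).2 (by
      rw [IsScalarTower.algebraMap_eq (MvPolynomial ι k) A (FractionRing A)]
      exact (IsFractionRing.injective A (FractionRing A)).comp hinj)
  let _ : Algebra (FractionRing (MvPolynomial ι k)) (FractionRing A) :=
    FractionRing.liftAlgebra (MvPolynomial ι k) (FractionRing A)
  have hun : Algebra.FormallyUnramified (FractionRing (MvPolynomial ι k)) (FractionRing A) :=
    unram_frac hs hs'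
  obtain ⟨θ, Φ, b, hb, h1, h2, h3⟩ := exists_prim (S := MvPolynomial ι k) (A := A)
    (F := FractionRing (MvPolynomial ι k)) (K := FractionRing A)
  exact ⟨θ, Φ, b, hb, h1, h2, h3⟩

end Pool.Agent.Lib.MP_b197b4_ntX
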