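import Mathlib

/-!
# A bound for the degree of a relation (Gauss)
-/

set_option autoImplicit false

namespace Pool.Agent.Lib.MP_b197b4_ntX

open Polynomial

theorem X5_coeff_swap {k : Type*} [CommRing k] (p : k[X][X]) (i j : ℕ) :
    ((Bivariate.swap p).coeff i).coeff j = (p.coeff j).coeff i := by
  induction p using Polynomial.induction_on' with
  | add p q hp hq => rw [map_add, coeff_add, coeff_add, hp, hq, coeff_add, coeff_add]
  | monomial n f =>
    rw [Bivariate.swap_monomial, coeff_mul_C, coeff_map, coeff_C_mul, coeff_X_pow, coeff_monomial]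
    by_cases h : j = n
    · subst h
      simp
    · rw [if_neg h, if_neg (Ne.symm h), mul_zero, coeff_zero]

theorem X5_degree {k : Type*} [CommRing k] (p : k[X][X]) (B : ℕ) :
    (∀ j, (p.coeff j).natDegree ≤ B) ↔ (Bivariate.swap p).natDegree ≤ B := by
  rw [natDegree_le_iff_coeff_eq_zero]
  constructor
  · intro h i hi
    ext j
    rw [X5_coeff_swap, coeff_zero]
    exact coeff_eq_zero_of_natDegree_lt ((h j).trans_lt hi)
  · intro h j
    rw [natDegree_le_iff_coeff_eq_zero]
    intro i hi
    rw [← X5_coeff_swap, h i hi, coeff_zero]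

/-- Let `α` be a root of `Φ`, a polynomial of degree `N` over `k[t]` whose coefficients have degree at most `B`. If the
elements `t ^ i * α ^ j`, `i ≤ B`, `j < N`, are linearly independent over `k`, then `Φ` is irreducible over `k(t)`, and
it divides there all polynomials with the root `α`. -/
theorem irr_of_indep {k R : Type*} [Field k] [CommRing R] [IsDomain R] [Algebra k[X] R]
    (hinj : Function.Injective (algebraMap k[X] R)) {Φ : k[X][X]} {B N : ℕ} (hN : Φ.natDegree = N) (hN0 : 0 < N)
    (hB : ∀ j, (Φ.coeff j).natDegree ≤ B) {α : R} (hα : aeval α Φ = 0)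
    (hind : ∀ q : k[X][X], q.natDegree < N → (∀ j, (q.coeff j).natDegree ≤ B) → aeval α q = 0 → q = 0) :
    Irreducible (Φ.map (algebraMap k[X] (FractionRing k[X]))) ∧
      ∀ q : k[X][X], aeval α q = 0 →
        Φ.map (algebraMap k[X] (FractionRing k[X])) ∣ q.map (algebraMap k[X] (FractionRing k[X])) := by
  classical
  have hinj' : Function.Injective (algebraMap k[X] (FractionRing R)) := by
    rw [IsScalarTower.algebraMap_eq k[X] R (FractionRing R)]
    exact (IsFractionRing.injective R (FractionRing R)).comp hinj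
  have : FaithfulSMul k[X] (FractionRing R) := (faithfulSMul_iff_algebraMap_injective _ _).2 hinj'
  let _ := FractionRing.liftAlgebra k[X] (FractionRing R)
  have := FractionRing.isScalarTower_liftAlgebra k[X] (FractionRing R)
  let _ : NormalizedGCDMonoid k[X] := Classical.choice inferInstance
  have hinjK : Function.Injective (algebraMap k[X] (FractionRing k[X])) := IsFractionRing.injective _ _
  have hroot : ∀ p : k[X][X],
      aeval (algebraMap R (FractionRing R) α) (p.map (algebraMap k[X] (FractionRing k[X]))) = 0 ↔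
        aeval α p = 0 := by
    intro p
    rw [aeval_map_algebraMap, aeval_algebraMap_apply]
    exact (map_eq_zero_iff _ (IsFractionRing.injective R (FractionRing R)))
  set a : FractionRing R := algebraMap R (FractionRing R) α with ha
  have hΦ0 : Φ ≠ 0 := by
    rintro rfl
    rw [natDegree_zero] at hN
    omega
  have hΦK0 : Φ.map (algebraMap k[X] (FractionRing k[X])) ≠ 0 :=
    (Polynomial.map_ne_zero_iff hinjK).2 hΦ0
  have hΦN : (Φ.map (algebraMap k[X] (FractionRing k[X]))).natDegree = N := by
    rw [natDegree_map_eq_of_injective hinjK, hN]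
  have hint : IsIntegral (FractionRing k[X]) a :=
    isAlgebraic_iff_isIntegral.1 ⟨_, hΦK0, (hroot Φ).2 hα⟩
  set μ := minpoly (FractionRing k[X]) a with hμ
  have hμi : Irreducible μ := minpoly.irreducible hint
  have hμd : μ ∣ Φ.map (algebraMap k[X] (FractionRing k[X])) := minpoly.dvd _ _ ((hroot Φ).2 hα)
  -- a primitive polynomial over `k[t]`
  obtain ⟨b, hb, hbμ⟩ := IsLocalization.integerNormalization_spec (nonZeroDivisors k[X]) μ
  set q₀ := IsLocalization.integerNormalization (nonZeroDivisors k[X]) μ with hq₀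
  have hb0 : algebraMap k[X] (FractionRing k[X]) b ≠ 0 := by
    rw [Ne, map_eq_zero_iff _ hinjK]
    exact nonZeroDivisors.ne_zero hb
  have hq₀μ : q₀.map (algebraMap k[X] (FractionRing k[X])) =
      C (algebraMap k[X] (FractionRing k[X]) b) * μ := by
    rw [hbμ, Algebra.smul_def]
    rfl
  have hq₀0 : q₀ ≠ 0 := by
    intro h0
    rw [h0, Polynomial.map_zero] at hq₀μ
    exact mul_ne_zero (C_ne_zero.2 hb0) hμi.ne_zero hq₀μ.symm
  set q := q₀.primPart with hq
  have hcont : q₀ = C q₀.content * q := q₀.eq_C_content_mul_primPart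
  have hc0 : algebraMap k[X] (FractionRing k[X]) q₀.content ≠ 0 := by
    rw [Ne, map_eq_zero_iff _ hinjK, content_eq_zero_iff]
    exact hq₀0
  have hqμ : C (algebraMap k[X] (FractionRing k[X]) q₀.content) *
      q.map (algebraMap k[X] (FractionRing k[X])) = C (algebraMap k[X] (FractionRing k[X]) b) * μ := by
    rw [← hq₀μ]
    conv_rhs => rw [hcont]
    rw [Polynomial.map_mul, map_C]
  have hqd : q.map (algebraMap k[X] (FractionRing k[X])) ∣ μ := by
    refine (IsUnit.dvd_mul_left (isUnit_C.2 (isUnit_iff_ne_zero.2 hb0))).1 ?_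
    rw [← hqμ]
    exact dvd_mul_left _ _
  have hqdeg : q.natDegree = μ.natDegree := by
    have h1 := congrArg natDegree hqμ
    rw [natDegree_C_mul hc0, natDegree_C_mul hb0, natDegree_map_eq_of_injective hinjK] at h1
    exact h1
  have hqroot : aeval α q = 0 := by
    rw [← hroot]
    have h1 := congrArg (aeval a) hqμ
    rw [map_mul, map_mul, minpoly.aeval, mul_zero, aeval_C] at h1
    rcases mul_eq_zero.1 h1 with h2 | h2
    · exact absurd ((map_eq_zero _).1 h2) hc0
    · exact h2
  have hμN : μ.natDegree = N := by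
    refine le_antisymm (hΦN ▸ natDegree_le_of_dvd hμd hΦK0) ?_
    by_contra hlt
    rw [not_le] at hlt
    have hqΦ : q ∣ Φ :=
      (isPrimitive_primPart q₀).dvd_of_fraction_map_dvd_fraction_map (K := FractionRing k[X])
        (hqd.trans hμd)
    obtain ⟨r, hr⟩ := hqΦ
    have hq0 : q ≠ 0 := left_ne_zero_of_mul (hr ▸ hΦ0)
    have hr0 : r ≠ 0 := right_ne_zero_of_mul (hr ▸ hΦ0)
    refine hq0 (hind q (by rw [hqdeg]; exact hlt) ?_ hqroot)
    rw [X5_degree] at hB ⊢
    refine le_trans ?_ hB
    rw [hr, map_mul, natDegree_mul ((map_ne_zero_iff _ (AlgEquiv.injective _)).2 hq0)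
      ((map_ne_zero_iff _ (AlgEquiv.injective _)).2 hr0)]
    exact Nat.le_add_right _ _
  obtain ⟨r, hr⟩ := hμd
  have hr0 : r ≠ 0 := right_ne_zero_of_mul (hr ▸ hΦK0)
  have hrdeg : r.natDegree = 0 := by
    have h1 := congrArg natDegree hr
    rw [natDegree_mul hμi.ne_zero hr0, hΦN, hμN] at h1
    omega
  have hru : IsUnit r := by
    rw [eq_C_of_natDegree_eq_zero hrdeg] at hr0 ⊢
    exact isUnit_C.2 (isUnit_iff_ne_zero.2 (C_ne_zero.1 hr0))
  have hass : Associated μ (Φ.map (algebraMap k[X] (FractionRing k[X]))) := by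
    rw [hr]
    exact (associated_mul_isUnit_right_iff hru).2 (Associated.refl _)
  refine ⟨hass.irreducible hμi, fun p hp => ?_⟩
  exact hass.symm.dvd.trans (minpoly.dvd _ _ ((hroot p).2 hp))

end Pool.Agent.Lib.MP_b197b4_ntX
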